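import Pool.Agent.Lib.MP_007122_lc.Graph

/-!
# MP_007122_lc: from an odd cycle without short diagonals to a path of hubs
-/

namespace Pool.Agent.MP_007122_lc

variable {K I R : Type} {S : R → K → Prop} {it : R → I} {s t : K} {n : ℕ} {z : ℕ → Vx K I R}

theorem OddSeq.ne {V : Type} {G : SimpleGraph V} {n : ℕ} {z : ℕ → V} (h : OddSeq G n z)
    (hn : 5 ≤ n) {a b : ℕ} (hab : a < b) (hb : b ≤ a + 4) : z a ≠ z b := by
  intro e
  have h1 := h.inj _ _ e
  have h2 : (b - a) % n = 0 := Nat.sub_mod_eq_zero_of_mod_eq h1.symm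
  rw [Nat.mod_eq_of_lt (by omega)] at h2
  omega

/-- In a cycle without short diagonals a route vertex lies between the two ends of its item: the
hubs joined to a route are joined to everything which is joined to the route.
Proof: case distinction on `z m` and `z (m + 2)`; both are joined to `rt r` and they are different
(`inj`, as `m % n ≠ (m + 2) % n`) and not joined to each other. -/
theorem rt_mid (h : OddSeq (Gr S it s t) n z) (hn : 5 ≤ n) {m : ℕ} {r : R}
    (hr : z (m + 1) = .rt r) : ∃ b, z m = .en (it r) b ∧ z (m + 2) = .en (it r) (!b) := by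
  have h1 := h.adj m
  have h2 := h.adj (m + 1)
  have h3 := h.nadj m
  have h4 := h.ne hn (show m < m + 2 by omega) (by omega)
  rw [hr] at h1 h2
  change (Gr S it s t).Adj (Vx.rt r) (z (m + 2)) at h2
  generalize z m = u at *
  generalize z (m + 2) = w at *
  cases u with
  | hub k => cases w with
    | hub k' =>
      exfalso
      apply h3
      left
      intro e
      exact h4 (by rw [e])
    | en i b => exact absurd (Or.inl trivial) h3
    | rt r' => simp [Gr, half] at h2
    | va => simp [Gr, half] at h2
    | vb => simp [Gr, half] at h2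
  | en i b => cases w with
    | hub k' => exact absurd (Or.inr trivial) h3
    | en i' b' =>
      simp only [Gr, half, or_false, false_or] at h1 h2
      subst h1
      subst h2
      refine ⟨b, rfl, ?_⟩
      have : b' = !b := by
        cases b <;> cases b' <;> simp_all
      rw [this]
    | rt r' => simp [Gr, half] at h2
    | va => simp [Gr, half] at h2
    | vb => simp [Gr, half] at h2
  | rt r' => simp [Gr, half] at h1
  | va => simp [Gr, half] at h1
  | vb => simp [Gr, half] at h1

/-- An end of an item lies between a hub and a route of the item which has this hub in its hub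
set.  Proof: case distinction on `z m` and `z (m + 2)`; two hubs are adjacent; if both are routes
`rt r`, `rt r'`, then by `rt_mid` (for the positions `m + n` and `m + 2`) `z (m + n - 1)` and
`z (m + 3)` are both equal to `en i (!b)`, hence `(m + n - 1) % n = (m + 3) % n`, impossible for
odd `n ≥ 5`. -/
theorem en_mid (h : OddSeq (Gr S it s t) n z) (hn : 5 ≤ n) {m : ℕ} {i : I} {b : Bool}
    (he : z (m + 1) = .en i b) :
    (∃ k r, z m = .hub k ∧ z (m + 2) = .rt r ∧ it r = i ∧ S r k) ∨
      ∃ k r, z m = .rt r ∧ z (m + 2) = .hub k ∧ it r = i ∧ S r k := by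
  have h1 := h.adj m
  have h2 := h.adj (m + 1)
  have h3 := h.nadj m
  have h4 := h.ne hn (show m < m + 2 by omega) (by omega)
  rw [he] at h1 h2
  change (Gr S it s t).Adj (Vx.en i b) (z (m + 2)) at h2
  have key : ∀ r r', z m = .rt r → z (m + 2) = .rt r' → False := by
    intro r r' hr hr'
    have a1 : z (m + n) = .rt r := by rw [h.per, hr]
    have a2 : z ((m + n - 1) + 1) = .rt r := by rw [← a1]; congr 1; omega
    obtain ⟨b1, a3, a4⟩ := rt_mid h hn a2
    have a5 : z (m + n - 1 + 2) = z (m + 1) := by
      rw [← h.per (m + 1)]; congr 1; omega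
    have a6 : z ((m + 1) + 1) = .rt r' := hr'
    obtain ⟨b2, a7, a8⟩ := rt_mid h hn a6
    rw [a5, he] at a4
    rw [he] at a7
    simp only [Vx.en.injEq] at a4 a7
    have a9 : z (m + n - 1) = z (m + 1 + 2) := by
      rw [a3, a8, ← a4.1, ← a7.1, ← a7.2, a4.2, Bool.not_not]
    have b0 : m + n - 1 = m + 3 + (n - 4) := by omega
    have b1 := h.inj _ _ a9
    have b2 : (m + n - 1 - (m + 1 + 2)) % n = 0 := Nat.sub_mod_eq_zero_of_mod_eq b1
    rw [Nat.mod_eq_of_lt (by omega)] at b2
    omega
  generalize z m = u at *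
  generalize z (m + 2) = w at *
  cases u with
  | hub k => cases w with
    | hub k' =>
      exfalso
      apply h3
      left
      intro e
      exact h4 (by rw [e])
    | en i b => simp [Gr, half] at h2
    | rt r' =>
      left
      simp only [Gr, half, or_false, false_or] at h2 h3
      exact ⟨k, r', rfl, rfl, h2, not_not.1 h3⟩
    | va => simp [Gr, half] at h2
    | vb => simp [Gr, half] at h2
  | en i b => simp [Gr, half] at h1
  | rt r => cases w with
    | hub k' =>
      right
      simp only [Gr, half, or_false, false_or] at h1 h3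
      exact ⟨k', r, rfl, rfl, h1, not_not.1 h3⟩
    | en i b => simp [Gr, half] at h2
    | rt r' => exact (key r r' rfl rfl).elim
    | va => simp [Gr, half] at h2
    | vb => simp [Gr, half] at h2
  | va => simp [Gr, half] at h1
  | vb => simp [Gr, half] at h1

theorem va_mid (h : OddSeq (Gr S it s t) n z) (hn : 5 ≤ n) {m : ℕ} (ha : z (m + 1) = .va) :
    (z m = .hub s ∧ z (m + 2) = .vb) ∨ (z m = .vb ∧ z (m + 2) = .hub s) := by
  have h1 := h.adj m
  have h2 := h.adj (m + 1)
  have h3 := h.nadj m
  have h4 := h.ne hn (show m < m + 2 by omega) (by omega)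
  rw [ha] at h1 h2
  change (Gr S it s t).Adj Vx.va (z (m + 2)) at h2
  generalize z m = u at *
  generalize z (m + 2) = w at *
  cases u with
  | hub k => cases w with
    | hub k' =>
      exfalso
      apply h3
      left
      intro e
      exact h4 (by rw [e])
    | en i b => simp [Gr, half] at h2
    | rt r' => simp [Gr, half] at h2
    | va => simp [Gr, half] at h2
    | vb =>
      simp only [Gr, half, or_false, not_not, ne_eq] at h3
      left
      rw [h3]
      exact ⟨rfl, rfl⟩
  | en i b => simp [Gr, half] at h1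
  | rt r => simp [Gr, half] at h1
  | va => simp [Gr, half] at h1
  | vb => cases w with
    | hub k' =>
      simp only [Gr, half, false_or, not_not, ne_eq] at h3
      right
      rw [h3]
      exact ⟨rfl, rfl⟩
    | en i b => simp [Gr, half] at h2
    | rt r' => simp [Gr, half] at h2
    | va => simp [Gr, half] at h2
    | vb => exact absurd rfl h4

theorem vb_mid (h : OddSeq (Gr S it s t) n z) (hn : 5 ≤ n) {m : ℕ} (hb : z (m + 1) = .vb) :
    (z m = .hub t ∧ z (m + 2) = .va) ∨ (z m = .va ∧ z (m + 2) = .hub t) := by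
  have h1 := h.adj m
  have h2 := h.adj (m + 1)
  have h3 := h.nadj m
  have h4 := h.ne hn (show m < m + 2 by omega) (by omega)
  rw [hb] at h1 h2
  change (Gr S it s t).Adj Vx.vb (z (m + 2)) at h2
  generalize z m = u at *
  generalize z (m + 2) = w at *
  cases u with
  | hub k => cases w with
    | hub k' =>
      exfalso
      apply h3
      left
      intro e
      exact h4 (by rw [e])
    | en i b => simp [Gr, half] at h2
    | rt r' => simp [Gr, half] at h2
    | vb => simp [Gr, half] at h2
    | va =>
      simp only [Gr, half, or_false, not_not, ne_eq] at h3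
      left
      rw [h3]
      exact ⟨rfl, rfl⟩
  | en i b => simp [Gr, half] at h1
  | rt r => simp [Gr, half] at h1
  | vb => simp [Gr, half] at h1
  | va => cases w with
    | hub k' =>
      simp only [Gr, half, false_or, not_not, ne_eq] at h3
      right
      rw [h3]
      exact ⟨rfl, rfl⟩
    | en i b => simp [Gr, half] at h2
    | rt r' => simp [Gr, half] at h2
    | vb => simp [Gr, half] at h2
    | va => exact absurd rfl h4

/-- No two consecutive hubs.  Proof: let `z m = hub k`, `z (m + 1) = hub k'`.  `z (m + 2)` is not a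
hub and not an end of an item (they are joined to `hub k`), not a route (`rt_mid`).  If it is `va`,
then `z (m + 1) = hub s`, `z (m + 3) = vb` (`va_mid`), `z (m + 4) = hub t` (`vb_mid`), and
`z m = hub t`, as `hub k` is not joined to `va`; so `m % n = (m + 4) % n`, a contradiction.  The
same for `vb`. -/
theorem no_hub_hub (h : OddSeq (Gr S it s t) n z) (hn : 5 ≤ n) {m : ℕ} {k k' : K}
    (h0 : z m = .hub k) (h1 : z (m + 1) = .hub k') : False := by
  have h3 := h.nadj m
  have h4 := h.ne hn (show m < m + 2 by omega) (by omega)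
  have h5 := h.ne hn (show m < m + 4 by omega) (by omega)
  rw [h0] at h3 h4 h5
  match hw : z (m + 2) with
  | .hub k'' =>
    rw [hw] at h3 h4
    exact h3 (Or.inl fun e => h4 (by rw [e]))
  | .en i b =>
    rw [hw] at h3
    exact h3 (Or.inl trivial)
  | .rt r =>
    obtain ⟨b, hb, -⟩ := rt_mid h hn (show z (m + 1 + 1) = .rt r from hw)
    rw [h1] at hb
    cases hb
  | .va =>
    rw [hw] at h3
    simp only [Gr, half, or_false, not_not, ne_eq] at h3
    rcases va_mid h hn (show z (m + 1 + 1) = .va from hw) with ⟨h6, h7⟩ | ⟨h6, h7⟩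
    · rcases vb_mid h hn (show z (m + 2 + 1) = .vb from h7) with ⟨h8, h9⟩ | ⟨h8, h9⟩
      · rw [hw] at h8
        cases h8
      · exact h5 (by rw [show z (m + 4) = .hub t from h9, h3])
    · rw [h1] at h6
      cases h6
  | .vb =>
    rw [hw] at h3
    simp only [Gr, half, or_false, not_not, ne_eq] at h3
    rcases vb_mid h hn (show z (m + 1 + 1) = .vb from hw) with ⟨h6, h7⟩ | ⟨h6, h7⟩
    · rcases va_mid h hn (show z (m + 2 + 1) = .va from h7) with ⟨h8, h9⟩ | ⟨h8, h9⟩
      · rw [hw] at h8
        cases h8
      · exact h5 (by rw [show z (m + 4) = .hub s from h9, h3])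
    · rw [h1] at h6
      cases h6

/-- What follows a hub. -/
theorem hub_next (h : OddSeq (Gr S it s t) n z) (hn : 5 ≤ n) {m : ℕ} {k : K}
    (h0 : z m = .hub k) :
    (∃ r k' b, z (m + 1) = .en (it r) b ∧ z (m + 2) = .rt r ∧ z (m + 3) = .en (it r) (!b) ∧
      z (m + 4) = .hub k' ∧ S r k ∧ S r k') ∨
    (z (m + 1) = .va ∧ z (m + 2) = .vb ∧ z (m + 3) = .hub t) ∨
    (z (m + 1) = .vb ∧ z (m + 2) = .va ∧ z (m + 3) = .hub s) := by
  match hw : z (m + 1) with
  | .hub k' => exact (no_hub_hub h hn h0 hw).elim
  | .en i b =>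
    left
    rcases en_mid h hn hw with ⟨k1, r, h1, h2, h3, h4⟩ | ⟨k1, r, h1, h2, h3, h4⟩
    · rw [h0] at h1
      cases h1
      obtain ⟨b', h5, h6⟩ := rt_mid h hn (show z (m + 1 + 1) = .rt r from h2)
      rw [hw] at h5
      cases h5
      rcases en_mid h hn (show z (m + 2 + 1) = _ from h6) with ⟨k2, r2, h7, h8, h9, h10⟩ |
        ⟨k2, r2, h7, h8, h9, h10⟩
      · rw [h2] at h7
        cases h7
      · rw [h2] at h7
        cases h7
        exact ⟨r, k2, b, rfl, h2, h6, h8, h4, h10⟩
    · rw [h0] at h1
      cases h1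
  | .rt r =>
    obtain ⟨b, hb, -⟩ := rt_mid h hn hw
    rw [h0] at hb
    cases hb
  | .va =>
    right
    left
    rcases va_mid h hn hw with ⟨h1, h2⟩ | ⟨h1, h2⟩
    · rcases vb_mid h hn (show z (m + 1 + 1) = .vb from h2) with ⟨h3, h4⟩ | ⟨h3, h4⟩
      · rw [hw] at h3
        cases h3
      · exact ⟨rfl, h2, h4⟩
    · rw [h0] at h1
      cases h1
  | .vb =>
    right
    right
    rcases vb_mid h hn hw with ⟨h1, h2⟩ | ⟨h1, h2⟩
    · rcases va_mid h hn (show z (m + 1 + 1) = .va from h2) with ⟨h3, h4⟩ | ⟨h3, h4⟩
      · rw [hw] at h3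
        cases h3
      · exact ⟨rfl, h2, h4⟩
    · rw [h0] at h1
      cases h1

end Pool.Agent.MP_007122_lc
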