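import Mathlib
import Pool.Agent.Lib.MP_8b4e11_lc.Defs

/-!
# MP_007122_lc: graphs whose odd cycles have short diagonals

The adjacency matrix of a graph on `{0, …, n - 1}`, as a word of `n * n` bits, is
`Pool.Agent.Lib.MP_8b4e11_lc.matrixWord`.
-/

namespace Pool.Agent.MP_007122_lc

open Pool.Agent.Lib.MP_8b4e11_lc (matrixWord)

/-- Every odd cycle `x 0, x 1, …, x (2 k)` of length `2 k + 1 ≥ 5` of the graph (a subgraph, not
necessarily induced; indices modulo `2 k + 1`) has a short diagonal, i.e. an edge `x i, x (i + 2)`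
of the graph. -/
def ShortChorded {V : Type} (G : SimpleGraph V) : Prop :=
  ∀ k : ℕ, 2 ≤ k → ∀ x : ZMod (2 * k + 1) → V, Function.Injective x →
    (∀ i, G.Adj (x i) (x (i + 1))) → ∃ i, G.Adj (x i) (x (i + 2))

/-- The recognition problem, as a set of bit strings: the adjacency matrices of the graphs in
which every odd cycle of length at least five has a short diagonal. -/
def shortChordedGraphs : Set (List Bool) :=
  {w | ∃ (n : ℕ) (G : SimpleGraph (Fin n)) (A : Fin n → Fin n → Bool),
    (∀ i j, A i j = true ↔ G.Adj i j) ∧ ShortChorded G ∧ w = matrixWord n A}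

end Pool.Agent.MP_007122_lc
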