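import Pool.Agent.Lib.MP_007122_lc.Graph

/-!
# MP_007122_lc: from a path of hubs to an odd cycle without short diagonals
-/

namespace Pool.Agent.MP_007122_lc

variable {K I R : Type} {S : R → K → Prop} {it : R → I} {s t : K} {M : ℕ} {k : ℕ → K} {r : ℕ → R}

/-- The vertices of the cycle, `j < 4 M + 3`: hub, end, route, end, hub, …, hub `s`, `va`, `vb`. -/
def cyc (it : R → I) (M : ℕ) (k : ℕ → K) (r : ℕ → R) (m : ℕ) : Vx K I R :=
  if m % 4 = 0 then .hub (k (m / 4))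
  else if m / 4 = M then (if m % 4 = 1 then .va else .vb)
  else if m % 4 = 1 then .en (it (r (m / 4))) true
  else if m % 4 = 2 then .rt (r (m / 4))
  else .en (it (r (m / 4))) false

private theorem cyc_h (j : ℕ) : cyc it M k r (4 * j) = .hub (k j) := by
  unfold cyc
  rw [if_pos (by omega), show 4 * j / 4 = j by omega]

private theorem cyc_1 {j : ℕ} (hj : j < M) : cyc it M k r (4 * j + 1) = .en (it (r j)) true := by
  unfold cyc
  rw [if_neg (by omega), show (4 * j + 1) / 4 = j by omega, if_neg (by omega),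
    if_pos (by omega)]

private theorem cyc_2 {j : ℕ} (hj : j < M) : cyc it M k r (4 * j + 2) = .rt (r j) := by
  unfold cyc
  rw [if_neg (by omega), show (4 * j + 2) / 4 = j by omega, if_neg (by omega),
    if_neg (by omega), if_pos (by omega)]

private theorem cyc_3 {j : ℕ} (hj : j < M) : cyc it M k r (4 * j + 3) = .en (it (r j)) false := by
  unfold cyc
  rw [if_neg (by omega), show (4 * j + 3) / 4 = j by omega, if_neg (by omega),
    if_neg (by omega), if_neg (by omega)]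

private theorem cyc_va : cyc it M k r (4 * M + 1) = .va := by
  unfold cyc
  rw [if_neg (by omega), show (4 * M + 1) / 4 = M by omega, if_pos rfl, if_pos (by omega)]

private theorem cyc_vb : cyc it M k r (4 * M + 2) = .vb := by
  unfold cyc
  rw [if_neg (by omega), show (4 * M + 2) / 4 = M by omega, if_pos rfl, if_neg (by omega)]

/-- The positions on the cycle. -/
private theorem pos_cases {M m : ℕ} (hm : m < 4 * M + 3) :
    (∃ j ≤ M, m = 4 * j) ∨ (∃ j < M, m = 4 * j + 1) ∨ (∃ j < M, m = 4 * j + 2) ∨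
      (∃ j < M, m = 4 * j + 3) ∨ m = 4 * M + 1 ∨ m = 4 * M + 2 := by
  have h4 : m % 4 = 0 ∨ m % 4 = 1 ∨ m % 4 = 2 ∨ m % 4 = 3 := by omega
  rcases h4 with h | h | h | h
  · exact Or.inl ⟨m / 4, by omega, by omega⟩
  · by_cases hM : m / 4 = M
    · exact Or.inr (Or.inr (Or.inr (Or.inr (Or.inl (by omega)))))
    · exact Or.inr (Or.inl ⟨m / 4, by omega, by omega⟩)
  · by_cases hM : m / 4 = M
    · exact Or.inr (Or.inr (Or.inr (Or.inr (Or.inr (by omega)))))
    · exact Or.inr (Or.inr (Or.inl ⟨m / 4, by omega, by omega⟩))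
  · exact Or.inr (Or.inr (Or.inr (Or.inl ⟨m / 4, by omega, by omega⟩)))

private theorem cyc_adj (hst : s ≠ t) (h : HubPath S it s t M k r) {a : ℕ}
    (ha : a < 4 * M + 3) :
    (Gr S it s t).Adj (cyc it M k r a) (cyc it M k r ((a + 1) % (4 * M + 3))) := by
  change half S it s t _ _ ∨ half S it s t _ _
  rcases pos_cases ha with ⟨j, hj, rfl⟩ | ⟨j, hj, rfl⟩ | ⟨j, hj, rfl⟩ | ⟨j, hj, rfl⟩ | rfl | rfl
  · rw [Nat.mod_eq_of_lt (show 4 * j + 1 < 4 * M + 3 by omega), cyc_h]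
    rcases Nat.lt_or_eq_of_le hj with h1 | rfl
    · rw [cyc_1 h1]
      exact Or.inl trivial
    · rw [cyc_va, h.fin]
      exact Or.inl hst
  · rw [Nat.mod_eq_of_lt (show 4 * j + 1 + 1 < 4 * M + 3 by omega), cyc_1 hj,
      show 4 * j + 1 + 1 = 4 * j + 2 by omega, cyc_2 hj]
    exact Or.inl rfl
  · rw [Nat.mod_eq_of_lt (show 4 * j + 2 + 1 < 4 * M + 3 by omega), cyc_2 hj,
      show 4 * j + 2 + 1 = 4 * j + 3 by omega, cyc_3 hj]
    exact Or.inr rfl
  · rw [Nat.mod_eq_of_lt (show 4 * j + 3 + 1 < 4 * M + 3 by omega), cyc_3 hj,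
      show 4 * j + 3 + 1 = 4 * (j + 1) by omega, cyc_h]
    exact Or.inr trivial
  · rw [Nat.mod_eq_of_lt (show 4 * M + 1 + 1 < 4 * M + 3 by omega), cyc_va,
      show 4 * M + 1 + 1 = 4 * M + 2 by omega, cyc_vb]
    exact Or.inl trivial
  · rw [show 4 * M + 2 + 1 = 4 * M + 3 by omega, Nat.mod_self, cyc_vb,
      show (0 : ℕ) = 4 * 0 by omega, cyc_h, h.start]
    exact Or.inr (Ne.symm hst)

private theorem cyc_nadj (hM : 1 ≤ M) (h : HubPath S it s t M k r) {a : ℕ}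
    (ha : a < 4 * M + 3) :
    ¬ (Gr S it s t).Adj (cyc it M k r a) (cyc it M k r ((a + 2) % (4 * M + 3))) := by
  change ¬ (half S it s t _ _ ∨ half S it s t _ _)
  rcases pos_cases ha with ⟨j, hj, rfl⟩ | ⟨j, hj, rfl⟩ | ⟨j, hj, rfl⟩ | ⟨j, hj, rfl⟩ | rfl | rfl
  · rw [Nat.mod_eq_of_lt (show 4 * j + 2 < 4 * M + 3 by omega), cyc_h]
    rcases Nat.lt_or_eq_of_le hj with h1 | rfl
    · rw [cyc_2 h1]
      rintro (h2 | h2)
      · exact h2 (h.left j h1)
      · exact h2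
    · rw [cyc_vb, h.fin]
      rintro (h2 | h2)
      · exact h2 rfl
      · exact h2
  · rw [Nat.mod_eq_of_lt (show 4 * j + 1 + 2 < 4 * M + 3 by omega), cyc_1 hj,
      show 4 * j + 1 + 2 = 4 * j + 3 by omega, cyc_3 hj]
    rintro (h2 | h2)
    · exact h2
    · exact h2
  · rw [Nat.mod_eq_of_lt (show 4 * j + 2 + 2 < 4 * M + 3 by omega), cyc_2 hj,
      show 4 * j + 2 + 2 = 4 * (j + 1) by omega, cyc_h]
    rintro (h2 | h2)
    · exact h2
    · exact h2 (h.right j hj)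
  · rw [Nat.mod_eq_of_lt (show 4 * j + 3 + 2 < 4 * M + 3 by omega), cyc_3 hj,
      show 4 * j + 3 + 2 = 4 * (j + 1) + 1 by omega]
    rcases Nat.lt_or_eq_of_le (show j + 1 ≤ M by omega) with h1 | h1
    · rw [cyc_1 h1]
      rintro (h2 | h2)
      · exact h2
      · exact h2
    · rw [h1, cyc_va]
      rintro (h2 | h2)
      · exact h2
      · exact h2
  · rw [show 4 * M + 1 + 2 = 4 * M + 3 by omega, Nat.mod_self, cyc_va,
      show (0 : ℕ) = 4 * 0 by omega, cyc_h, h.start]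
    rintro (h2 | h2)
    · exact h2
    · exact h2 rfl
  · rw [show 4 * M + 2 + 2 = 1 + (4 * M + 3) by omega, Nat.add_mod_right,
      Nat.mod_eq_of_lt (show 1 < 4 * M + 3 by omega), cyc_vb,
      show (1 : ℕ) = 4 * 0 + 1 by omega, cyc_1 (show 0 < M by omega)]
    rintro (h2 | h2)
    · exact h2
    · exact h2

private theorem cyc_inj (h : HubPath S it s t M k r) {a b : ℕ}
    (ha : a < 4 * M + 3) (hb : b < 4 * M + 3) (hab : cyc it M k r a = cyc it M k r b) : a = b := by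
  rcases pos_cases ha with ⟨i, hi, rfl⟩ | ⟨i, hi, rfl⟩ | ⟨i, hi, rfl⟩ | ⟨i, hi, rfl⟩ | rfl | rfl <;>
  rcases pos_cases hb with ⟨j, hj, rfl⟩ | ⟨j, hj, rfl⟩ | ⟨j, hj, rfl⟩ | ⟨j, hj, rfl⟩ | rfl | rfl <;>
  (try rfl) <;> (try rw [cyc_h i] at hab) <;> (try rw [cyc_h j] at hab) <;>
  (try rw [cyc_va] at hab) <;> (try rw [cyc_vb] at hab) <;>
  (try rw [cyc_1 hi] at hab) <;> (try rw [cyc_2 hi] at hab) <;> (try rw [cyc_3 hi] at hab) <;>
  (try rw [cyc_1 hj] at hab) <;> (try rw [cyc_2 hj] at hab) <;> (try rw [cyc_3 hj] at hab) <;>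
  (try (exfalso; simp at hab; done))
  · rw [Vx.hub.injEq] at hab
    rw [h.injk i hi j hj hab]
  · rw [Vx.en.injEq] at hab
    rw [h.injr i hi j hj hab.1]
  · rw [Vx.rt.injEq] at hab
    rw [h.injr i hi j hj (congrArg it hab)]
  · rw [Vx.en.injEq] at hab
    rw [h.injr i hi j hj hab.1]

/-- The cycle, as the periodic sequence `z m = cyc (m % (4 M + 3))`.  Here `M ≥ 1`, as `s ≠ t`. -/
theorem exists_seq (hst : s ≠ t) (h : HubPath S it s t M k r) :
    1 ≤ M ∧ OddSeq (Gr S it s t) (4 * M + 3) (fun m => cyc it M k r (m % (4 * M + 3))) := by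
  have hM : 1 ≤ M := by
    rcases Nat.eq_zero_or_pos M with h0 | h0
    · exfalso
      apply hst
      rw [← h.start, ← h.fin, h0]
    · exact h0
  have hn : 0 < 4 * M + 3 := by omega
  refine ⟨hM, fun m => ?_, fun a b hab => ?_, fun m => ?_, fun m => ?_⟩
  · rw [Nat.add_mod_right]
  · exact cyc_inj h (Nat.mod_lt _ hn) (Nat.mod_lt _ hn) hab
  · have h1 := cyc_adj hst h (Nat.mod_lt m hn)
    rwa [Nat.mod_add_mod] at h1
  · have h1 := cyc_nadj hM h (Nat.mod_lt m hn)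
    rwa [Nat.mod_add_mod] at h1

/-- The vertices of the cycle. -/
theorem cyc_cases (m : ℕ) : (∃ j ≤ M, cyc it M k r (m % (4 * M + 3)) = .hub (k j)) ∨
    (∃ j < M, ∃ b, cyc it M k r (m % (4 * M + 3)) = .en (it (r j)) b) ∨
    (∃ j < M, cyc it M k r (m % (4 * M + 3)) = .rt (r j)) ∨
    cyc it M k r (m % (4 * M + 3)) = .va ∨ cyc it M k r (m % (4 * M + 3)) = .vb := by
  have hn : 0 < 4 * M + 3 := by omega
  rcases pos_cases (Nat.mod_lt m hn) with
    ⟨j, hj, e⟩ | ⟨j, hj, e⟩ | ⟨j, hj, e⟩ | ⟨j, hj, e⟩ | e | e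
  · exact Or.inl ⟨j, hj, by rw [e, cyc_h]⟩
  · exact Or.inr (Or.inl ⟨j, hj, true, by rw [e, cyc_1 hj]⟩)
  · exact Or.inr (Or.inr (Or.inl ⟨j, hj, by rw [e, cyc_2 hj]⟩))
  · exact Or.inr (Or.inl ⟨j, hj, false, by rw [e, cyc_3 hj]⟩)
  · exact Or.inr (Or.inr (Or.inr (Or.inl (by rw [e, cyc_va]))))
  · exact Or.inr (Or.inr (Or.inr (Or.inr (by rw [e, cyc_vb]))))

end Pool.Agent.MP_007122_lc
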