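import Pool.Agent.Lib.MP_007122_lc.Seq

/-!
# MP_007122_lc: the graph of a system of hubs, items and routes
-/

namespace Pool.Agent.MP_007122_lc

/-- The vertices: hubs, the two ends of every item, the routes and two extra vertices. -/
inductive Vx (K I R : Type) : Type
  | hub (k : K) : Vx K I R
  | en (i : I) (b : Bool) : Vx K I R
  | rt (r : R) : Vx K I R
  | va : Vx K I R
  | vb : Vx K I R

variable {K I R : Type}

/-- Half of the adjacency relation. Hubs form a clique; the ends of the items are joined to all
hubs; a route `r` is joined to the hubs outside its hub set `S r` and to the two ends of its item;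
`va` is joined to the hubs different from `t` and to `vb`, and `vb` to the hubs different from
`s`. -/
def half (S : R → K → Prop) (it : R → I) (s t : K) : Vx K I R → Vx K I R → Prop
  | .hub k, .hub k' => k ≠ k'
  | .hub _, .en _ _ => True
  | .hub k, .rt r => ¬ S r k
  | .hub k, .va => k ≠ t
  | .hub k, .vb => k ≠ s
  | .en i _, .rt r => it r = i
  | .va, .vb => True
  | _, _ => False

/-- The graph. -/
def Gr (S : R → K → Prop) (it : R → I) (s t : K) : SimpleGraph (Vx K I R) where
  Adj u v := half S it s t u v ∨ half S it s t v u
  symm := ⟨fun _ _ h => Or.symm h⟩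
  loopless := ⟨fun u h => by
    have h : half S it s t u u := h.elim id id
    cases u <;> simp [half] at h⟩

/-- A path of hubs from `t` to `s` along routes which belong to different items. -/
structure HubPath (S : R → K → Prop) (it : R → I) (s t : K) (M : ℕ) (k : ℕ → K) (r : ℕ → R) :
    Prop where
  start : k 0 = t
  fin : k M = s
  left : ∀ j < M, S (r j) (k j)
  right : ∀ j < M, S (r j) (k (j + 1))
  injk : ∀ i ≤ M, ∀ j ≤ M, k i = k j → i = j
  injr : ∀ i < M, ∀ j < M, it (r i) = it (r j) → i = j

end Pool.Agent.MP_007122_lc
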