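import Pool.Agent.Lib.MP_007122_lc.Word
import Pool.Agent.Lib.CookLevin.Raw
import Pool.Agent.Lib.MP_71902e_lc.PolyAux

/-!
# MP_007122_lc: the reduction is computable in polynomial time
-/

namespace Pool.Agent.MP_007122_lc

open Pool.Agent.CookLevin Pool.Agent.PolyTime

instance : Enc (Fin 6) := ⟨fun i => enc i.val⟩

instance : EncInj (Fin 6) := ⟨fun _ _ h => Fin.val_injective (EncInj.inj h)⟩

variable {V : Type} [Enc V] [EncInj V] [DecidableEq V]

private theorem q_ite {α β : Type} [Enc α] [Enc β] {c : α → Prop} [∀ a, Decidable (c a)]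
    {f g : α → β} (hc : PTime fun a => decide (c a)) (hf : PTime f) (hg : PTime g) :
    PTime (fun a => if c a then f a else g a) :=
  (PTime.cond hc hf hg).of_eq fun a => by
    by_cases h : c a <;> simp [h]

private theorem q_succ {α : Type} [Enc α] {f : α → ℕ} (hf : PTime f) :
    PTime (fun a => f a + 1) := PTime.succ hf

omit [EncInj V] [DecidableEq V] in
private theorem pt_occ : PTime (occ : List (Cl V) → List (Oc V)) := by
  unfold occ
  refine PTime.zipIdx (PTime.flatMap (f := fun F : List (Cl V) => F.zipIdx)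
    (g := fun (_ : List (Cl V)) (p : Cl V × ℕ) =>
      [(p.2, p.1.1), (p.2, p.1.2.1), (p.2, p.1.2.2)]) (PTime.zipIdx PTime.id) ?_)
  show PTime (fun q : List (Cl V) × (Cl V × ℕ) =>
    [(q.2.2, q.2.1.1), (q.2.2, q.2.1.2.1), (q.2.2, q.2.1.2.2)])
  fun_prop

omit [EncInj V] [DecidableEq V] in
private theorem pt_pairs (t : Fin 6) : PTime (fun F : List (Cl V) =>
    (occ F).flatMap fun o => (occ F).map fun o' =>
      (t, (((none, 0) : Hub V), (o, o')))) := by
  refine PTime.flatMap (g := fun (F : List (Cl V)) (o : Oc V) => (occ F).map fun o' =>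
      (t, (((none, 0) : Hub V), (o, o')))) pt_occ ?_
  refine PTime.map (g := fun (p : List (Cl V) × Oc V) (o' : Oc V) =>
      (t, (((none, 0) : Hub V), (p.2, o')))) (pt_occ.comp PTime.fst) ?_
  show PTime (fun q : (List (Cl V) × Oc V) × Oc V => (t, (((none, 0) : Hub V), (q.1.2, q.2))))
  fun_prop

omit [EncInj V] [DecidableEq V] in
private theorem pt_verts (o₀ : Oc V) : PTime (verts o₀ : List (Cl V) → List (Wx V)) := by
  unfold verts
  refine PTime.append ?_ (PTime.append ?_ (PTime.append ?_ (PTime.append ?_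
    (PTime.append ?_ ?_))))
  · refine PTime.map (f := fun F : List (Cl V) => List.range (F.length + 1))
      (g := fun (_ : List (Cl V)) (j : ℕ) => ((0 : Fin 6), (((none, j) : Hub V), (o₀, o₀))))
      (PTime.range (PTime.succ (PTime.length PTime.id))) ?_
    show PTime (fun q : List (Cl V) × ℕ => ((0 : Fin 6), (((none, q.2) : Hub V), (o₀, o₀))))
    fun_prop
  · refine PTime.flatMap (g := fun (F : List (Cl V)) (o : Oc V) =>
      (List.range (occ F).length).map fun i =>
        ((0 : Fin 6), (((some o, i) : Hub V), (o₀, o₀)))) pt_occ ?_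
    refine PTime.map (f := fun p : List (Cl V) × Oc V => List.range (occ p.1).length)
      (g := fun (p : List (Cl V) × Oc V) (i : ℕ) =>
        ((0 : Fin 6), (((some p.2, i) : Hub V), (o₀, o₀))))
      (PTime.range (PTime.length (pt_occ.comp PTime.fst))) ?_
    show PTime (fun q : (List (Cl V) × Oc V) × ℕ =>
      ((0 : Fin 6), (((some q.1.2, q.2) : Hub V), (o₀, o₀))))
    fun_prop
  · exact pt_pairs 1
  · exact pt_pairs 2
  · exact pt_pairs 3
  · exact PTime.const _

private theorem pt_deq {α β : Type} [Enc α] [Enc β] [EncInj β] [DecidableEq β] {f g : α → β}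
    (hf : PTime f) (hg : PTime g) : PTime (fun a => decide (f a = g a)) :=
  PTime.eq hf hg

omit [EncInj V] [DecidableEq V] in
private theorem pt_hubAt {α : Type} [Enc α] {N i : α → ℕ} {o : α → Oc V} (hN : PTime N)
    (hi : PTime i) (ho : PTime o) : PTime (fun a => hubAt (N a) (o a) (i a)) := by
  unfold hubAt
  have h1 : PTime (fun a => (o a).1.1) := by fun_prop
  have h2 : PTime (fun a => (o a).1.1 + 1) := q_succ h1
  refine q_ite (pt_deq hi (PTime.const 0)) ?_ (q_ite (pt_deq hi hN) ?_ ?_)
  · exact (PTime.const (none : Option (Oc V))).pair h1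
  · exact (PTime.const (none : Option (Oc V))).pair h2
  · exact (PTime.some ho).pair hi

private theorem pt_item {α : Type} [Enc α] {r : α → Oc V × Oc V} (hr : PTime r) :
    PTime (fun a => item (r a)) := by
  unfold item
  have h1 : PTime (fun a => decide ((r a).1.1.2.1 = (r a).2.1.2.1)) :=
    pt_deq (by fun_prop) (by fun_prop)
  have h2 : PTime (fun a => decide ((r a).1.1.2.2 = false)) :=
    pt_deq (by fun_prop) (PTime.const false)
  have h3 : PTime (fun a => decide ((r a).2.1.2.2 = true)) :=
    pt_deq (by fun_prop) (PTime.const true)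
  have h4 : PTime (fun a => decide (Opp (r a).1 (r a).2)) :=
    (h1.and (h2.and h3)).of_eq fun a => by
      rw [Bool.eq_iff_iff, decide_eq_true_iff, Bool.and_eq_true, Bool.and_eq_true,
        decide_eq_true_iff, decide_eq_true_iff, decide_eq_true_iff]
      rfl
  exact q_ite h4 (by fun_prop) hr

private theorem pt_halfB {α : Type} [Enc α] {N m : α → ℕ} {u v : α → Wx V} (hN : PTime N)
    (hm : PTime m) (hu : PTime u) (hv : PTime v) :
    PTime (fun a => halfB (N a) (m a) (u a) (v a)) := by
  unfold halfB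
  have u1 : PTime (fun a => (u a).1) := by fun_prop
  have v1 : PTime (fun a => (v a).1) := by fun_prop
  have u21 : PTime (fun a => (u a).2.1) := by fun_prop
  have v21 : PTime (fun a => (v a).2.1) := by fun_prop
  have u22 : PTime (fun a => (u a).2.2) := by fun_prop
  have v22 : PTime (fun a => (v a).2.2) := by fun_prop
  have vo : PTime (fun a => (v a).2.2.1) := by fun_prop
  have vi : PTime (fun a => (v a).2.2.2.2) := by fun_prop
  have cu : ∀ t : Fin 6, PTime (fun a => decide ((u a).1 = t)) := fun t =>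
    pt_deq u1 (PTime.const t)
  have cv : ∀ t : Fin 6, PTime (fun a => decide ((v a).1 = t)) := fun t =>
    pt_deq v1 (PTime.const t)
  have a1 : PTime (fun a => decide ((u a).2.1 = (v a).2.1)) := pt_deq u21 v21
  have a2 : PTime (fun a => decide ((u a).2.1 = hubAt (N a) (v a).2.2.1 (v a).2.2.2.2)) :=
    pt_deq u21 (pt_hubAt hN vi vo)
  have a3 : PTime (fun a => decide ((u a).2.1 = hubAt (N a) (v a).2.2.1
      ((v a).2.2.2.2 + 1))) := pt_deq u21 (pt_hubAt hN (q_succ vi) vo)
  have a4 : PTime (fun a => decide ((u a).2.1 = ((none, 0) : Hub V))) :=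
    pt_deq u21 (PTime.const _)
  have a5 : PTime (fun a => decide ((u a).2.1 = ((none, m a) : Hub V))) :=
    pt_deq u21 ((PTime.const (none : Option (Oc V))).pair hm)
  have a6 : PTime (fun a => decide (item (v a).2.2 = (u a).2.2)) := pt_deq (pt_item v22) u22
  exact ((cu 0).and (((cv 0).and a1.not).or (((cv 1).or (cv 2)).or
    (((cv 3).and (a2.not.and a3.not)).or (((cv 4).and a4.not).or ((cv 5).and a5.not)))))).or
    ((((cu 1).or (cu 2)).and ((cv 3).and a6)).or ((cu 4).and (cv 5)))

/-- Proof: as `ptime_wordOf` in `Pool.Agent.Lib.MP_8b4e11_lc.Hard`; the combinators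
`PTime.flatMap`, `PTime.map`, `PTime.zipIdx`, `PTime.range`, `PTime.length`, `PTime.eq`,
`PTime.cond`, `PTime.and`, `PTime.or`, `PTime.not`, … are in `PolyTime.Lists` and
`CookLevin.Nat`. -/
theorem ptime_wordOf (o₀ : Oc V) : PTime (wordOf o₀ : List (Cl V) → List Bool) := by
  unfold wordOf
  refine PTime.flatMap (g := fun (F : List (Cl V)) (u : Wx V) => (verts o₀ F).map fun v =>
    (halfB (occ F).length F.length u v || halfB (occ F).length F.length v u)) (pt_verts o₀) ?_
  refine PTime.map (g := fun (p : List (Cl V) × Wx V) (v : Wx V) =>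
    (halfB (occ p.1).length p.1.length p.2 v || halfB (occ p.1).length p.1.length v p.2))
    ((pt_verts o₀).comp PTime.fst) ?_
  have f1 : PTime (fun q : (List (Cl V) × Wx V) × Wx V => q.1.1) := by fun_prop
  have hN : PTime (fun q : (List (Cl V) × Wx V) × Wx V => (occ q.1.1).length) :=
    PTime.length (pt_occ.comp f1)
  have hm : PTime (fun q : (List (Cl V) × Wx V) × Wx V => q.1.1.length) := PTime.length f1
  have hu : PTime (fun q : (List (Cl V) × Wx V) × Wx V => q.1.2) := by fun_prop
  have hv : PTime (fun q : (List (Cl V) × Wx V) × Wx V => q.2) := by fun_prop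
  exact (pt_halfB hN hm hu hv).or (pt_halfB hN hm hv hu)

end Pool.Agent.MP_007122_lc
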