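import Pool.Agent.Lib.MP_007122_lc.Inst

/-!
# MP_007122_lc: a path of hubs gives a satisfying assignment
-/

namespace Pool.Agent.MP_007122_lc

open Pool.Agent.CookLevin

variable {V : Type} [DecidableEq V] {F : List (Cl V)} {M : ℕ} {k : ℕ → Hub V}
  {r : ℕ → Oc V × Oc V}

section aux

omit [DecidableEq V]

private theorem hubAt_some {N : ℕ} {o o₁ : Oc V} {a b : ℕ} (h : hubAt N o₁ a = (some o, b)) :
    o₁ = o ∧ a = b := by
  unfold hubAt at h
  split_ifs at h
  · exact absurd (congrArg Prod.fst h) (by simp)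
  · exact absurd (congrArg Prod.fst h) (by simp)
  · exact ⟨Option.some.inj (congrArg Prod.fst h), congrArg Prod.snd h⟩

/-- the hubs before the clause `j` -/
private def Bf (j : ℕ) (q : Hub V) : Prop := q.1.elim (q.2 ≤ j) fun o => o.1.1 < j

private theorem Bf_lo {N j : ℕ} {o : Oc V} (h : o.1.1 < j) (a : ℕ) : Bf j (hubAt N o a) := by
  unfold hubAt
  split_ifs
  · exact h.le
  · exact h
  · exact h

private theorem Bf_hi {N j : ℕ} {o : Oc V} (h : j < o.1.1) (a : ℕ) : ¬ Bf j (hubAt N o a) := by
  unfold hubAt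
  split_ifs
  · exact fun h1 : o.1.1 ≤ j => by omega
  · exact fun h1 : o.1.1 + 1 ≤ j => by omega
  · exact fun h1 : o.1.1 < j => by omega

end aux

/-- Every clause has a used strand.  Proof: let `A` be the set of the hubs `(none, j')` with
`j' ≤ j` and `(some o, i)` with `o.1.1 < j`.  `k 0 ∈ A`, `k M ∉ A`, so there is `l < M` with
`k l ∈ A`, `k (l + 1) ∉ A` (least index outside of `A`).  Both are in the hub set of
`r l = (o, o')`; if `o.1.1 < j` the whole hub set is in `A`, if `o.1.1 > j` it is disjoint from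
`A`. -/
theorem exists_used (h : HubPath (hs (occ F).length) item (none, F.length) (none, 0) M k r)
    {j : ℕ} (hj : j < F.length) : ∃ l < M, (r l).1.1.1 = j := by
  have h0 : Bf j (k 0) := by
    rw [h.start]
    exact Nat.zero_le j
  have hM : ¬ Bf j (k M) := by
    rw [h.fin]
    exact Nat.not_le.2 hj
  by_contra hne
  have hne1 : ∀ l < M, (r l).1.1.1 ≠ j := fun l hl h1 => hne ⟨l, hl, h1⟩
  apply hM
  have key : ∀ l ≤ M, Bf j (k l) := by
    intro l
    induction l with
    | zero => exact fun _ => h0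
    | succ l ih =>
      intro hl
      have hA := ih (by omega)
      rcases Nat.lt_or_gt_of_ne (hne1 l (by omega)) with h1 | h1
      · rcases h.right l (by omega) with h2 | h2
        · rw [h2]
          exact Bf_lo h1 _
        · rw [h2]
          exact Bf_lo h1 _
      · exfalso
        rcases h.left l (by omega) with h2 | h2
        · rw [h2] at hA
          exact Bf_hi h1 _ hA
        · rw [h2] at hA
          exact Bf_hi h1 _ hA
  exact key M le_rfl

/-- Propagation along a strand.  Proof: `q = hubAt N o (i + 1) = (some o, i + 1)`, as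
`0 < i + 1 < N`.  A route `(o₁, o₂)` has `q` in its hub set iff `o₁ = o` and
`o₂.2 = i` or `o₂.2 = i + 1`.  By assumption a route `r l` of the strand of `o` with number `i` or
`i + 1` is used; `k l ≠ k (l + 1)` are both in its hub set, so one of them is `q`; write `q = k a`
with `0 < a < M` (`k 0`, `k M` are of the form `(none, _)`).  `r (a - 1)` and `r a` have `q` in
their hub sets, and they are different (`injr`); as an occurrence is determined by its number
(`occ_inj`), one of them has the number `i` and the other one `i + 1`. -/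
theorem used_iff (h : HubPath (hs (occ F).length) item (none, F.length) (none, 0) M k r)
    (hr : ∀ l < M, (r l).1 ∈ occ F ∧ (r l).2 ∈ occ F) {o : Oc V} {i : ℕ}
    (hi : i + 1 < (occ F).length) :
    (∃ l < M, (r l).1 = o ∧ (r l).2.2 = i) ↔ ∃ l < M, (r l).1 = o ∧ (r l).2.2 = i + 1 := by
  -- the hub between the two steps of the strand
  have hq : hubAt (occ F).length o (i + 1) = (some o, i + 1) := by
    unfold hubAt
    rw [if_neg (Nat.succ_ne_zero i), if_neg hi.ne]
  have hS : ∀ p : Oc V × Oc V, hs (occ F).length p (some o, i + 1) →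
      p.1 = o ∧ (p.2.2 = i ∨ p.2.2 = i + 1) := by
    rintro p (h1 | h1)
    · obtain ⟨h2, h3⟩ := hubAt_some h1.symm
      exact ⟨h2, Or.inr h3⟩
    · obtain ⟨h2, h3⟩ := hubAt_some h1.symm
      exact ⟨h2, Or.inl (by omega)⟩
  have hS' : ∀ p : Oc V × Oc V, p.1 = o → (p.2.2 = i ∨ p.2.2 = i + 1) → ∀ q q' : Hub V, q ≠ q' →
      hs (occ F).length p q → hs (occ F).length p q' →
      q = (some o, i + 1) ∨ q' = (some o, i + 1) := by
    rintro p hp hp' q q' hne h1 h2
    unfold hs at h1 h2
    rw [hp] at h1 h2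
    rcases hp' with hp' | hp'
    · rw [hp', hq] at h1 h2
      rcases h1 with h1 | h1
      · rcases h2 with h2 | h2
        · exact absurd (h1.trans h2.symm) hne
        · exact Or.inr h2
      · exact Or.inl h1
    · rw [hp', hq] at h1 h2
      rcases h1 with h1 | h1
      · exact Or.inl h1
      · rcases h2 with h2 | h2
        · exact Or.inr h2
        · exact absurd (h1.trans h2.symm) hne
  have key : (∃ l < M, (r l).1 = o ∧ ((r l).2.2 = i ∨ (r l).2.2 = i + 1)) →
      (∃ l < M, (r l).1 = o ∧ (r l).2.2 = i) ∧ ∃ l < M, (r l).1 = o ∧ (r l).2.2 = i + 1 := by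
    rintro ⟨l, hl, hl1, hl2⟩
    have hne : k l ≠ k (l + 1) := fun h1 => by
      have := h.injk l (by omega) (l + 1) (by omega) h1
      omega
    obtain ⟨a, ha, hka⟩ : ∃ a ≤ M, k a = (some o, i + 1) := by
      rcases hS' (r l) hl1 hl2 _ _ hne (h.left l hl) (h.right l hl) with h1 | h1
      · exact ⟨l, by omega, h1⟩
      · exact ⟨l + 1, by omega, h1⟩
    have ha0 : a ≠ 0 := by
      rintro rfl
      rw [h.start] at hka
      exact absurd (congrArg Prod.fst hka) (by simp)
    have haM : a ≠ M := by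
      rintro rfl
      rw [h.fin] at hka
      exact absurd (congrArg Prod.fst hka) (by simp)
    obtain ⟨b, rfl⟩ : ∃ b, a = b + 1 := ⟨a - 1, by omega⟩
    have hb : b < M := by omega
    have hb1 : b + 1 < M := by omega
    have h1 := h.right b hb
    have h2 := h.left (b + 1) hb1
    rw [hka] at h1 h2
    obtain ⟨h3, h4⟩ := hS _ h1
    obtain ⟨h5, h6⟩ := hS _ h2
    have h7 : (r b).2.2 ≠ (r (b + 1)).2.2 := by
      intro h8
      have h9 := occ_inj (hr b hb).2 (hr (b + 1) hb1).2 h8
      have h10 : r b = r (b + 1) := Prod.ext (h3.trans h5.symm) h9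
      have h11 := h.injr b hb (b + 1) hb1 (by rw [h10])
      omega
    rcases h4 with h4 | h4
    · rcases h6 with h6 | h6
      · exact absurd (h4.trans h6.symm) h7
      · exact ⟨⟨b, hb, h3, h4⟩, ⟨b + 1, hb1, h5, h6⟩⟩
    · rcases h6 with h6 | h6
      · exact ⟨⟨b + 1, hb1, h5, h6⟩, ⟨b, hb, h3, h4⟩⟩
      · exact absurd (h4.trans h6.symm) h7
  constructor
  · rintro ⟨l, hl, h1, h2⟩
    exact (key ⟨l, hl, h1, Or.inl h2⟩).2
  · rintro ⟨l, hl, h1, h2⟩
    exact (key ⟨l, hl, h1, Or.inr h2⟩).1

/-- All steps of a used strand are used.  Proof: induction up and down with `used_iff`, and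
`occ_inj`. -/
theorem all_used (h : HubPath (hs (occ F).length) item (none, F.length) (none, 0) M k r)
    (hr : ∀ l < M, (r l).1 ∈ occ F ∧ (r l).2 ∈ occ F) {o : Oc V} (ho : ∃ l < M, (r l).1 = o)
    {o' : Oc V} (ho' : o' ∈ occ F) : ∃ l < M, r l = (o, o') := by
  have h1 : ∀ i < (occ F).length, (∃ l < M, (r l).1 = o ∧ (r l).2.2 = i) ↔
      ∃ l < M, (r l).1 = o ∧ (r l).2.2 = 0 := by
    intro i
    induction i with
    | zero => exact fun _ => Iff.rfl
    | succ i ih =>
      intro hi
      exact (used_iff h hr hi).symm.trans (ih (by omega))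
  obtain ⟨l, hl, hlo⟩ := ho
  have h2 := (h1 _ (occ_lt (hr l hl).2)).1 ⟨l, hl, hlo, rfl⟩
  obtain ⟨l', hl', h3, h4⟩ := (h1 _ (occ_lt ho')).2 h2
  exact ⟨l', hl', Prod.ext h3 (occ_inj (hr l' hl').2 ho' h4)⟩

/-- Proof: let `τ v` hold iff a strand of an occurrence `o` with `o.1.2 = (v, true)` is used.
Every clause `c`, number `j`, has a used strand `o` (`exists_used`), and its literal (`occ_clause`)
is true: this is clear if it is positive.  If it is negative, `o.1.2 = (v, false)`, and `τ v`, let
the strand of `o'` with `o'.1.2 = (v, true)` be used.  By `all_used` `r l = (o, o')` and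
`r l' = (o', o)`, and these two have the same item `(o', o)`; so `l = l'` and `o = o'`, a
contradiction. -/
theorem sat_of_path (h : HubPath (hs (occ F).length) item (none, F.length) (none, 0) M k r)
    (hr : ∀ l < M, (r l).1 ∈ occ F ∧ (r l).2 ∈ occ F) : Sat3 F := by
  refine ⟨fun v => ∃ l < M, (r l).1.1.2 = (v, true), fun c hc => ?_⟩
  obtain ⟨j, hj, hjc⟩ := List.mem_iff_getElem.1 hc
  obtain ⟨l, hl, hlj⟩ := exists_used h hj
  obtain ⟨c', hc', hlit⟩ := occ_clause (hr l hl).1
  have hcc : c' = c := by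
    rw [hlj, List.getElem?_eq_getElem hj, hjc] at hc'
    exact (Option.some.inj hc').symm
  rw [hcc] at hlit
  have hold : Lit.holds (fun v => ∃ l < M, (r l).1.1.2 = (v, true)) (r l).1.1.2 := by
    unfold Lit.holds
    constructor
    · rintro ⟨l', hl', h1⟩
      by_contra h2
      have h2' : (r l).1.1.2.2 = false := by simpa using h2
      obtain ⟨l₁, hl₁, e₁⟩ := all_used h hr ⟨l, hl, rfl⟩ (hr l' hl').1
      obtain ⟨l₂, hl₂, e₂⟩ := all_used h hr ⟨l', hl', rfl⟩ (hr l hl).1
      have h3 : Opp (r l).1 (r l').1 := ⟨by rw [h1], h2', by rw [h1]⟩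
      have h4 : ¬ Opp (r l').1 (r l).1 := fun h5 => by
        have h6 := h5.2.1
        rw [h1] at h6
        exact Bool.noConfusion h6
      have h5 : item (r l₁) = item (r l₂) := by
        rw [e₁, e₂]
        unfold item
        rw [if_pos h3, if_neg h4]
      have h6 := h.injr l₁ hl₁ l₂ hl₂ h5
      rw [h6, e₂] at e₁
      have h7 : (r l').1 = (r l).1 := (Prod.mk.inj e₁).1
      rw [← h7, h1] at h2'
      exact Bool.noConfusion h2'
    · intro h1
      exact ⟨l, hl, Prod.ext rfl h1⟩
  rcases hlit with h1 | h1 | h1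
  · exact Or.inl (h1 ▸ hold)
  · exact Or.inr (Or.inl (h1 ▸ hold))
  · exact Or.inr (Or.inr (h1 ▸ hold))

end Pool.Agent.MP_007122_lc
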