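import Pool.Agent.Lib.MP_007122_lc.Inst

/-!
# MP_007122_lc: a satisfying assignment gives a path of hubs
-/

namespace Pool.Agent.MP_007122_lc

open Pool.Agent.CookLevin

variable {V : Type} [DecidableEq V] {F : List (Cl V)}

/-- Proof: let `τ` be a satisfying assignment, `m = F.length ≥ 1`, `N = (occ F).length ≥ 1`.
Choose for every `j < m` an occurrence `p j ∈ occ F` with `(p j).1.1 = j` whose literal holds
under `τ` (`exists_occ`), and for every `i < N` the occurrence `q i ∈ occ F` with `(q i).2 = i`
(`occ_surj`).  `M = m * N`, `r l = (p (l / N), q (l % N))`,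
`k l = if l % N = 0 then (none, l / N) else (some (p (l / N)), l % N)`.  For `l < M`,
`k l = hubAt N (p (l / N)) (l % N)` and `k (l + 1) = hubAt N (p (l / N)) (l % N + 1)`.
`injk`: `p j` determines `j`, and `(l / N, l % N)` determines `l`.  `injr`: if `item (r l)` and
`item (r l')` are equal and both or none of the routes are swapped, then `r l = r l'`, so
`l / N = l' / N` and `l % N = l' % N`; if only `r l` is swapped, then
`(q _, p (l / N)) = (p (l' / N), q _)` where `p (l / N)` is negative and `p (l' / N)` positive with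
the same variable, but both literals hold under `τ`. -/
theorem path_of_sat (hF : F ≠ []) (h : Sat3 F) :
    ∃ M k r, HubPath (hs (occ F).length) item (none, F.length) (none, 0) M k r ∧
      (∀ l < M, (r l).1 ∈ occ F ∧ (r l).2 ∈ occ F) ∧
      ∀ l ≤ M, (∃ j ≤ F.length, k l = (none, j)) ∨
        ∃ o ∈ occ F, ∃ i < (occ F).length, k l = (some o, i) := by
  obtain ⟨τ, hτ⟩ := h
  have hm : 0 < F.length := List.length_pos_iff.2 hF
  have hp : ∀ j, ∃ o : Oc V, j < F.length → o ∈ occ F ∧ o.1.1 = j ∧ Lit.holds τ o.1.2 := by
    intro j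
    by_cases hj : j < F.length
    · have h1 : F[j]? = some F[j] := List.getElem?_eq_getElem hj
      have h2 := hτ F[j] (List.getElem_mem hj)
      unfold Cl.holds at h2
      rcases h2 with h2 | h2 | h2
      · obtain ⟨o, ho, h3, h4⟩ := exists_occ h1 (Or.inl rfl)
        exact ⟨o, fun _ => ⟨ho, h3, by rw [h4]; exact h2⟩⟩
      · obtain ⟨o, ho, h3, h4⟩ := exists_occ h1 (Or.inr (Or.inl rfl))
        exact ⟨o, fun _ => ⟨ho, h3, by rw [h4]; exact h2⟩⟩
      · obtain ⟨o, ho, h3, h4⟩ := exists_occ h1 (Or.inr (Or.inr rfl))
        exact ⟨o, fun _ => ⟨ho, h3, by rw [h4]; exact h2⟩⟩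
    · obtain ⟨c, hc⟩ := List.exists_mem_of_ne_nil F hF
      exact ⟨((0, c.1), 0), fun h => absurd h hj⟩
  choose p hp using hp
  have hN : 0 < (occ F).length := by
    have := occ_lt (hp 0 hm).1
    omega
  have hq : ∀ i, ∃ o : Oc V, i < (occ F).length → o ∈ occ F ∧ o.2 = i := by
    intro i
    by_cases hi : i < (occ F).length
    · obtain ⟨o, ho, h1⟩ := occ_surj hi
      exact ⟨o, fun _ => ⟨ho, h1⟩⟩
    · exact ⟨p 0, fun h => absurd h hi⟩
  choose q hq using hq
  generalize hNe : (occ F).length = N at *
  have hdiv : ∀ l, l < F.length * N → l / N < F.length := fun l hl =>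
    Nat.div_lt_of_lt_mul (by rwa [Nat.mul_comm] at hl)
  have hmod : ∀ l, l % N < N := fun l => Nat.mod_lt l hN
  have hk0 : ∀ l, (if l % N = 0 then ((none, l / N) : Hub V) else (some (p (l / N)), l % N)) =
      if l % N = 0 then ((none, l / N) : Hub V) else (some (p (l / N)), l % N) := fun _ => rfl
  have hka : ∀ l, l < F.length * N →
      (if l % N = 0 then ((none, l / N) : Hub V) else (some (p (l / N)), l % N)) =
        hubAt N (p (l / N)) (l % N) := by
    intro l hl
    unfold hubAt
    have h1 := (hp (l / N) (hdiv l hl)).2.1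
    have h2 := hmod l
    by_cases h0 : l % N = 0
    · rw [if_pos h0, if_pos h0, h1]
    · rw [if_neg h0, if_neg h0, if_neg (by omega)]
  have hkb : ∀ l, l < F.length * N →
      (if (l + 1) % N = 0 then ((none, (l + 1) / N) : Hub V)
        else (some (p ((l + 1) / N)), (l + 1) % N)) = hubAt N (p (l / N)) (l % N + 1) := by
    intro l hl
    unfold hubAt
    have h1 := (hp (l / N) (hdiv l hl)).2.1
    have h2 := hmod l
    have h3 := Nat.div_add_mod l N
    by_cases h4 : l % N + 1 = N
    · have h5 : l + 1 = (l / N + 1) * N := by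
        rw [Nat.add_mul, one_mul, Nat.mul_comm]
        omega
      have h6 : (l + 1) % N = 0 := by rw [h5, Nat.mul_mod_left]
      have h7 : (l + 1) / N = l / N + 1 := by rw [h5, Nat.mul_div_cancel _ hN]
      rw [if_pos h6, if_neg (by omega), if_pos h4, h7, h1]
    · have h5 : l + 1 = (l % N + 1) + N * (l / N) := by omega
      have h6 : (l + 1) % N = l % N + 1 := by
        conv_lhs => rw [h5]
        rw [Nat.add_mul_mod_self_left, Nat.mod_eq_of_lt (by omega)]
      have h7 : (l + 1) / N = l / N := by
        conv_lhs => rw [h5]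
        rw [Nat.add_mul_div_left _ _ hN, Nat.div_eq_of_lt (by omega), zero_add]
      rw [if_neg (by omega), if_neg (by omega), if_neg h4, h6, h7]
  refine ⟨F.length * N, fun l => if l % N = 0 then (none, l / N) else (some (p (l / N)), l % N),
    fun l => (p (l / N), q (l % N)), ⟨?_, ?_, ?_, ?_, ?_, ?_⟩, ?_, ?_⟩
  · simp
  · show (if F.length * N % N = 0 then ((none, F.length * N / N) : Hub V)
      else (some (p (F.length * N / N)), F.length * N % N)) = _
    rw [Nat.mul_mod_left, if_pos rfl, Nat.mul_div_cancel _ hN]
  · intro l hl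
    show _ ∨ _
    left
    show (if l % N = 0 then ((none, l / N) : Hub V) else (some (p (l / N)), l % N)) = _
    rw [hka l hl, (hq (l % N) (hmod l)).2]
  · intro l hl
    show _ ∨ _
    right
    show (if (l + 1) % N = 0 then ((none, (l + 1) / N) : Hub V)
        else (some (p ((l + 1) / N)), (l + 1) % N)) = _
    rw [hkb l hl, (hq (l % N) (hmod l)).2]
  · intro i hi j hj hij
    change (if i % N = 0 then ((none, i / N) : Hub V) else (some (p (i / N)), i % N)) =
      if j % N = 0 then ((none, j / N) : Hub V) else (some (p (j / N)), j % N) at hij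
    have e1 := Nat.div_add_mod i N
    have e2 := Nat.div_add_mod j N
    have hlt : ∀ l, l ≤ F.length * N → l % N ≠ 0 → l / N < F.length := by
      intro l hl h0
      rcases Nat.lt_or_ge l (F.length * N) with h | h
      · exact hdiv l h
      · exfalso
        have : l = F.length * N := le_antisymm hl h
        rw [this, Nat.mul_mod_left] at h0
        exact h0 rfl
    by_cases h1 : i % N = 0
    · by_cases h2 : j % N = 0
      · rw [if_pos h1, if_pos h2] at hij
        have := (Prod.mk.inj hij).2
        rw [← e1, ← e2, this, h1, h2]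
      · rw [if_pos h1, if_neg h2] at hij
        exact absurd (Prod.mk.inj hij).1 (by simp)
    · by_cases h2 : j % N = 0
      · rw [if_neg h1, if_pos h2] at hij
        exact absurd (Prod.mk.inj hij).1 (by simp)
      · rw [if_neg h1, if_neg h2] at hij
        obtain ⟨h3, h4⟩ := Prod.mk.inj hij
        have h5 := Option.some.inj h3
        have h6 := (hp _ (hlt i hi h1)).2.1
        have h7 := (hp _ (hlt j hj h2)).2.1
        rw [h5, h7] at h6
        rw [← e1, ← e2, h6, h4]
  · intro i hi j hj hij
    have e1 := Nat.div_add_mod i N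
    have e2 := Nat.div_add_mod j N
    have p1 := hp _ (hdiv i hi)
    have p2 := hp _ (hdiv j hj)
    have q1 := hq _ (hmod i)
    have q2 := hq _ (hmod j)
    have main : p (i / N) = p (j / N) → q (i % N) = q (j % N) → i = j := by
      intro a b
      have a' := p1.2.1
      rw [a, p2.2.1] at a'
      have b' := q1.2
      rw [b, q2.2] at b'
      rw [← e1, ← e2, a', b']
    change item (p (i / N), q (i % N)) = item (p (j / N), q (j % N)) at hij
    unfold item at hij
    have contra : ∀ a b : Oc V, a.1.2.1 = b.1.2.1 → a.1.2.2 = false → b.1.2.2 = true →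
        Lit.holds τ a.1.2 → Lit.holds τ b.1.2 → False := by
      intro a b h1 h2 h3 h4 h5
      unfold Lit.holds at h4 h5
      rw [h2] at h4
      rw [h3, ← h1] at h5
      simp at h4 h5
      exact h4 h5
    by_cases h1 : Opp (p (i / N)) (q (i % N))
    · by_cases h2 : Opp (p (j / N)) (q (j % N))
      · rw [if_pos h1, if_pos h2] at hij
        obtain ⟨h3, h4⟩ := Prod.mk.inj hij
        exact main h4 h3
      · rw [if_pos h1, if_neg h2] at hij
        obtain ⟨h3, h4⟩ := Prod.mk.inj hij
        simp only at h3 h4
        unfold Opp at h1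
        rw [h3] at h1
        exact (contra _ _ h1.1 h1.2.1 h1.2.2 p1.2.2 p2.2.2).elim
    · by_cases h2 : Opp (p (j / N)) (q (j % N))
      · rw [if_neg h1, if_pos h2] at hij
        obtain ⟨h3, h4⟩ := Prod.mk.inj hij
        simp only at h3 h4
        unfold Opp at h2
        rw [← h3] at h2
        exact (contra _ _ h2.1 h2.2.1 h2.2.2 p2.2.2 p1.2.2).elim
      · rw [if_neg h1, if_neg h2] at hij
        obtain ⟨h3, h4⟩ := Prod.mk.inj hij
        exact main h3 h4
  · intro l hl
    exact ⟨(hp _ (hdiv l hl)).1, (hq _ (hmod l)).1⟩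
  · intro l hl
    show (∃ j ≤ F.length, (if l % N = 0 then ((none, l / N) : Hub V)
      else (some (p (l / N)), l % N)) = (none, j)) ∨ ∃ o ∈ occ F, ∃ i < N,
        (if l % N = 0 then ((none, l / N) : Hub V) else (some (p (l / N)), l % N)) = (some o, i)
    by_cases h0 : l % N = 0
    · left
      refine ⟨l / N, ?_, by rw [if_pos h0]⟩
      exact Nat.div_le_of_le_mul (by rwa [Nat.mul_comm] at hl)
    · right
      have h1 : l < F.length * N := by
        rcases Nat.lt_or_ge l (F.length * N) with h | h
        · exact h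
        · exfalso
          have : l = F.length * N := le_antisymm hl h
          rw [this, Nat.mul_mod_left] at h0
          exact h0 rfl
      exact ⟨p (l / N), (hp _ (hdiv l h1)).1, l % N, hmod l, by rw [if_neg h0]⟩

end Pool.Agent.MP_007122_lc
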