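import Pool.Agent.Lib.MP_007122_lc.Path
import Pool.Agent.Lib.MP_007122_lc.Fwd
import Pool.Agent.Lib.MP_007122_lc.SatBack
import Pool.Agent.Lib.MP_007122_lc.SatFwd
import Pool.Agent.Lib.MP_007122_lc.PT
import Pool.Agent.Lib.CookLevin.Main

/-!
# MP_007122_lc: the complement of the recognition problem is NP-hard
-/

namespace Pool.Agent.MP_007122_lc

open Pool.Agent.CookLevin Pool.Agent.PolyTime
open Pool.Agent.Lib.MP_8b4e11_lc (matrixWord matrixWord_inj)

section
variable {V : Type} [DecidableEq V]

/-- The graph of a nonempty 3SAT instance has an odd cycle without short diagonals iff the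
instance is satisfiable. -/
theorem graph_iff (o₀ : Oc V) {F : List (Cl V)} (hF : F ≠ []) :
    ¬ ShortChorded ((GrF F).comap (vtx o₀ F)) ↔ Sat3 F := by
  have hm : 0 < F.length := List.length_pos_iff.2 hF
  have hst : ((none, F.length) : Hub V) ≠ (none, 0) := by
    intro e
    have := (Prod.mk.inj e).2
    omega
  rw [not_shortChorded_iff]
  constructor
  · rintro ⟨k, hk, z, hz⟩
    have h1 := hz.of_comap (vtx_injective o₀ F)
    obtain ⟨M, κ, r, hp, hr⟩ := exists_path h1 (by omega) (by omega)
    refine sat_of_path hp fun l hl => ?_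
    obtain ⟨m, hm⟩ := hr l hl
    exact ((mem_range_vtx o₀ F).2.2.2.1 (r l).1 (r l).2).1 ⟨z m, hm⟩
  · intro h
    obtain ⟨M, κ, r, hp, hr, hκ⟩ := path_of_sat hF h
    obtain ⟨hM, hz⟩ := exists_seq hst hp
    obtain ⟨c1, c2, c3, c4, c5, c6⟩ := mem_range_vtx o₀ F
    have hitem : ∀ j < M, (item (r j)).1 ∈ occ F ∧ (item (r j)).2 ∈ occ F := by
      intro j hj
      unfold item
      split_ifs
      · exact ⟨(hr j hj).2, (hr j hj).1⟩
      · exact hr j hj
    obtain ⟨w, hw⟩ := hz.to_comap (vtx_injective o₀ F) (fun m => by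
      rcases cyc_cases (it := item) (M := M) (k := κ) (r := r) m with ⟨j, hj, e⟩ | ⟨j, hj, b, e⟩ |
        ⟨j, hj, e⟩ | e | e
      · rw [e]
        rcases hκ j hj with ⟨i, hi, e'⟩ | ⟨o, ho, i, hi, e'⟩
        · rw [e']
          exact c1 i hi
        · rw [e']
          exact c2 o ho i hi
      · rw [e]
        exact c3 _ (hitem j hj).1 _ (hitem j hj).2 b
      · rw [e]
        exact (c4 _ _).2 (hr j hj)
      · rw [e]
        exact c5
      · rw [e]
        exact c6)
    exact ⟨2 * M + 1, by omega, w, by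
      have e : 2 * (2 * M + 1) + 1 = 4 * M + 3 := by ring
      rw [e]
      exact hw⟩

theorem wordOf_mem (o₀ : Oc V) {F : List (Cl V)} (hF : F ≠ []) :
    wordOf o₀ F ∈ shortChordedGraphsᶜ ↔ Sat3 F := by
  have key : wordOf o₀ F ∈ shortChordedGraphs ↔ ShortChorded ((GrF F).comap (vtx o₀ F)) := by
    have hadj : ∀ i j : Fin (verts o₀ F).length,
        (halfB (occ F).length F.length ((verts o₀ F).get i) ((verts o₀ F).get j) ||
          halfB (occ F).length F.length ((verts o₀ F).get j) ((verts o₀ F).get i)) = true ↔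
          ((GrF F).comap (vtx o₀ F)).Adj i j := by
      intro i j
      rw [Bool.or_eq_true, halfB_iff, halfB_iff]
      exact Iff.rfl
    constructor
    · rintro ⟨n, G, A, hA, hS, hw⟩
      rw [wordOf_eq] at hw
      obtain ⟨e, hAA⟩ := matrixWord_inj hw
      subst e
      have hG : G = (GrF F).comap (vtx o₀ F) := by
        ext i j
        rw [← hadj, ← hA]
        have := hAA i j
        simp only [Fin.cast_eq_self] at this
        rw [← this]
      rw [← hG]
      exact hS
    · intro hS
      exact ⟨_, (GrF F).comap (vtx o₀ F), _, hadj, hS, wordOf_eq o₀ F⟩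
  rw [Set.mem_compl_iff, key, graph_iff o₀ hF]

end

/-- Recognising the graphs which are not short-chorded is NP-hard. -/
theorem npHard_compl : NPHard shortChordedGraphsᶜ := by
  intro L hL
  obtain ⟨F, hF, hFL⟩ := cook_levin hL
  let v₀ : VN := (0, (0, D.nil))
  let c₀ : Cl VN := ((v₀, true), ((v₀, false), (v₀, true)))
  let o₀ : Oc VN := ((0, (v₀, true)), 0)
  refine ⟨fun x => wordOf o₀ (c₀ :: F x),
    polyTimeComputable_of_ptime ((ptime_wordOf o₀).comp ((PTime.const c₀).cons hF)), fun x => ?_⟩
  rw [hFL, wordOf_mem o₀ (List.cons_ne_nil _ _)]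
  unfold Sat3
  refine exists_congr fun τ => ?_
  rw [List.forall_mem_cons]
  have hc : Cl.holds τ c₀ := by
    unfold Cl.holds Lit.holds
    by_cases h : τ v₀
    · left
      simpa [c₀] using h
    · right
      left
      simpa [c₀] using h
  exact ⟨fun h => ⟨hc, h⟩, fun h => h.2⟩

end Pool.Agent.MP_007122_lc
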