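import Pool.Agent.Lib.MP_007122_lc.Seq
import Pool.Agent.Lib.MP_8b4e11_lc.InNP

/-!
# MP_007122_lc: the complement of the recognition problem is in NP
-/

namespace Pool.Agent.MP_007122_lc

open Pool.Agent.CookLevin Pool.Agent.PolyTime

open Pool.Agent.Lib.MP_8b4e11_lc (entry entry_iff ptime_entry entry_matrixWord matrixWord
  matrixWord_length eq_matrixWord)

private def g2 (x : List Bool) (n i j : ℕ) : Bool := !entry x n i j || entry x n j i

private def g1 (x : List Bool) (n i : ℕ) : Bool :=
  !entry x n i i && (List.range n).all fun j => g2 x n i j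

private def g0 (x : List Bool) (n : ℕ) : Bool :=
  decide (n * n = x.length) && (List.range n).all fun i => g1 x n i

private def isG (x : List Bool) : Bool := (List.range (x.length + 1)).any fun n => g0 x n

private def c4 (x u : List Bool) (n m i j v w : ℕ) : Bool :=
  !(entry u n i v && entry u n j w) || ((decide (i = j) || !(decide (v = w))) &&
    ((!(decide (i + 1 = j) || decide (i + 1 = j + m)) || entry x n v w) &&
      (!(decide (i + 2 = j) || decide (i + 2 = j + m)) || !entry x n v w)))

private def c3 (x u : List Bool) (n m i j v : ℕ) : Bool :=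
  (List.range n).all fun w => c4 x u n m i j v w

private def c2 (x u : List Bool) (n m i j : ℕ) : Bool :=
  (List.range n).all fun v => c3 x u n m i j v

private def c1 (x u : List Bool) (n m i : ℕ) : Bool :=
  ((List.range n).any fun v => entry u n i v) && (List.range m).all fun j => c2 x u n m i j

private def c0 (x u : List Bool) (n k : ℕ) : Bool :=
  (List.range (k + k + 5)).all fun i => c1 x u n (k + k + 5) i

private def cc (x u : List Bool) (n : ℕ) : Bool :=
  decide (n * n = x.length) && (List.range (n + 1)).any fun k => c0 x u n k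

private def ver (q : List Bool × List Bool) : Bool :=
  !isG q.1 || (List.range (q.1.length + 1)).any fun n => cc q.1 q.2 n

section ptime
variable {α : Type} [Enc α] {x u : α → List Bool} {n m i j k v w : α → ℕ}

private theorem pt_g2 (hx : PTime x) (hn : PTime n) (hi : PTime i) (hj : PTime j) :
    PTime (fun a => g2 (x a) (n a) (i a) (j a)) := by
  unfold g2
  exact (ptime_entry hx hn hi hj).not.or (ptime_entry hx hn hj hi)

private theorem pt_g1 (hx : PTime x) (hn : PTime n) (hi : PTime i) :
    PTime (fun a => g1 (x a) (n a) (i a)) := by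
  unfold g1
  refine (ptime_entry hx hn hi hi).not.and ?_
  refine PTime.all (g := fun a j => g2 (x a) (n a) (i a) j) hn.range ?_
  exact pt_g2 (hx.comp PTime.fst) (hn.comp PTime.fst) (hi.comp PTime.fst) PTime.snd

private theorem pt_g0 (hx : PTime x) (hn : PTime n) : PTime (fun a => g0 (x a) (n a)) := by
  unfold g0
  refine (PTime.eq (hn.mul hn) hx.length).and ?_
  refine PTime.all (g := fun a i => g1 (x a) (n a) i) hn.range ?_
  exact pt_g1 (hx.comp PTime.fst) (hn.comp PTime.fst) PTime.snd

private theorem pt_isG (hx : PTime x) : PTime (fun a => isG (x a)) := by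
  unfold isG
  refine PTime.any (g := fun a n => g0 (x a) n) (hx.length.succ).range ?_
  exact pt_g0 (hx.comp PTime.fst) PTime.snd

private theorem pt_c4 (hx : PTime x) (hu : PTime u) (hn : PTime n) (hm : PTime m) (hi : PTime i)
    (hj : PTime j) (hv : PTime v) (hw : PTime w) :
    PTime (fun a => c4 (x a) (u a) (n a) (m a) (i a) (j a) (v a) (w a)) := by
  unfold c4
  exact ((ptime_entry hu hn hi hv).and (ptime_entry hu hn hj hw)).not.or
    (((PTime.eq hi hj).or (PTime.eq hv hw).not).and
      ((((PTime.eq (hi.add (PTime.const 1)) hj).or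
        (PTime.eq (hi.add (PTime.const 1)) (hj.add hm))).not.or (ptime_entry hx hn hv hw)).and
      (((PTime.eq (hi.add (PTime.const 2)) hj).or
        (PTime.eq (hi.add (PTime.const 2)) (hj.add hm))).not.or (ptime_entry hx hn hv hw).not)))

private theorem pt_c3 (hx : PTime x) (hu : PTime u) (hn : PTime n) (hm : PTime m) (hi : PTime i)
    (hj : PTime j) (hv : PTime v) :
    PTime (fun a => c3 (x a) (u a) (n a) (m a) (i a) (j a) (v a)) := by
  unfold c3
  refine PTime.all (g := fun a w => c4 (x a) (u a) (n a) (m a) (i a) (j a) (v a) w) hn.range ?_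
  exact pt_c4 (hx.comp PTime.fst) (hu.comp PTime.fst) (hn.comp PTime.fst) (hm.comp PTime.fst)
    (hi.comp PTime.fst) (hj.comp PTime.fst) (hv.comp PTime.fst) PTime.snd

private theorem pt_c2 (hx : PTime x) (hu : PTime u) (hn : PTime n) (hm : PTime m) (hi : PTime i)
    (hj : PTime j) : PTime (fun a => c2 (x a) (u a) (n a) (m a) (i a) (j a)) := by
  unfold c2
  refine PTime.all (g := fun a v => c3 (x a) (u a) (n a) (m a) (i a) (j a) v) hn.range ?_
  exact pt_c3 (hx.comp PTime.fst) (hu.comp PTime.fst) (hn.comp PTime.fst) (hm.comp PTime.fst)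
    (hi.comp PTime.fst) (hj.comp PTime.fst) PTime.snd

private theorem pt_c1 (hx : PTime x) (hu : PTime u) (hn : PTime n) (hm : PTime m) (hi : PTime i) :
    PTime (fun a => c1 (x a) (u a) (n a) (m a) (i a)) := by
  unfold c1
  refine PTime.and ?_ ?_
  · refine PTime.any (g := fun a v => entry (u a) (n a) (i a) v) hn.range ?_
    exact ptime_entry (hu.comp PTime.fst) (hn.comp PTime.fst) (hi.comp PTime.fst) PTime.snd
  · refine PTime.all (g := fun a j => c2 (x a) (u a) (n a) (m a) (i a) j) hm.range ?_
    exact pt_c2 (hx.comp PTime.fst) (hu.comp PTime.fst) (hn.comp PTime.fst) (hm.comp PTime.fst)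
      (hi.comp PTime.fst) PTime.snd

private theorem pt_c0 (hx : PTime x) (hu : PTime u) (hn : PTime n) (hk : PTime k) :
    PTime (fun a => c0 (x a) (u a) (n a) (k a)) := by
  unfold c0
  have hm : PTime (fun a => k a + k a + 5) := (hk.add hk).add (PTime.const 5)
  refine PTime.all (g := fun a i => c1 (x a) (u a) (n a) (k a + k a + 5) i) hm.range ?_
  exact pt_c1 (hx.comp PTime.fst) (hu.comp PTime.fst) (hn.comp PTime.fst) (hm.comp PTime.fst)
    PTime.snd

private theorem pt_cc (hx : PTime x) (hu : PTime u) (hn : PTime n) :
    PTime (fun a => cc (x a) (u a) (n a)) := by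
  unfold cc
  refine (PTime.eq (hn.mul hn) hx.length).and ?_
  refine PTime.any (g := fun a k => c0 (x a) (u a) (n a) k) hn.succ.range ?_
  exact pt_c0 (hx.comp PTime.fst) (hu.comp PTime.fst) (hn.comp PTime.fst) PTime.snd

private theorem pt_ver : PTime ver := by
  unfold ver
  refine (pt_isG PTime.fst).not.or ?_
  refine PTime.any (g := fun (q : List Bool × List Bool) n => cc q.1 q.2 n)
    (PTime.fst.length.succ).range ?_
  exact pt_cc (PTime.fst.comp PTime.fst) (PTime.snd.comp PTime.fst) PTime.snd

end ptime

/-- `x` is the adjacency matrix of a graph with `n` vertices. -/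
private def GM (x : List Bool) (n : ℕ) : Prop :=
  n * n = x.length ∧ ∀ i < n, entry x n i i = false ∧
    ∀ j < n, entry x n i j = true → entry x n j i = true

/-- `u` codes a cycle without short diagonals. -/
private def CM (x u : List Bool) (n k : ℕ) : Prop :=
  ∀ i < k + k + 5, (∃ v < n, entry u n i v = true) ∧ ∀ j < k + k + 5, ∀ v < n, ∀ w < n,
    entry u n i v = true → entry u n j w = true → (i = j ∨ v ≠ w) ∧
      ((i + 1 = j ∨ i + 1 = j + (k + k + 5)) → entry x n v w = true) ∧
      ((i + 2 = j ∨ i + 2 = j + (k + k + 5)) → entry x n v w = false)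

private theorem isG_iff (x : List Bool) : isG x = true ↔ ∃ n, GM x n := by
  unfold isG
  rw [List.any_eq_true]
  constructor
  · rintro ⟨n, -, h⟩
    simp only [g0, Bool.and_eq_true, decide_eq_true_eq, List.all_eq_true, List.mem_range] at h
    refine ⟨n, h.1, fun i hi => ?_⟩
    have h1 := h.2 i hi
    simp only [g1, Bool.and_eq_true, List.all_eq_true, List.mem_range, Bool.not_eq_true'] at h1
    refine ⟨h1.1, fun j hj h2 => ?_⟩
    have h3 := h1.2 j hj
    simp only [g2, h2, Bool.not_true, Bool.false_or] at h3
    exact h3
  · rintro ⟨n, hn, h⟩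
    refine ⟨n, ?_, ?_⟩
    · rw [List.mem_range, Nat.lt_succ_iff, ← hn]
      exact Nat.le_mul_self n
    · simp only [g0, Bool.and_eq_true, decide_eq_true_eq, List.all_eq_true, List.mem_range]
      refine ⟨hn, fun i hi => ?_⟩
      simp only [g1, Bool.and_eq_true, List.all_eq_true, List.mem_range, Bool.not_eq_true']
      refine ⟨(h i hi).1, fun j hj => ?_⟩
      simp only [g2, Bool.or_eq_true, Bool.not_eq_true']
      by_cases h2 : entry x n i j = true
      · exact Or.inr ((h i hi).2 j hj h2)
      · exact Or.inl (by simpa using h2)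

private theorem c4_iff (x u : List Bool) (n m i j v w : ℕ) : c4 x u n m i j v w = true ↔
    (entry u n i v = true → entry u n j w = true → (i = j ∨ v ≠ w) ∧
      ((i + 1 = j ∨ i + 1 = j + m) → entry x n v w = true) ∧
      ((i + 2 = j ∨ i + 2 = j + m) → entry x n v w = false)) := by
  unfold c4
  cases entry u n i v <;> cases entry u n j w <;> cases entry x n v w <;>
    simp only [Bool.and_eq_true, Bool.or_eq_true, Bool.not_eq_true', decide_eq_true_eq,
      decide_eq_false_iff_not, Bool.or_eq_false_iff, Bool.not_true, Bool.not_false,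
      Bool.false_and, Bool.and_false, Bool.and_self, Bool.true_and, Bool.false_or] <;> tauto

private theorem c0_iff (x u : List Bool) (n k : ℕ) : c0 x u n k = true ↔ CM x u n k := by
  unfold c0 CM
  simp only [List.all_eq_true, List.mem_range]
  refine forall₂_congr fun i _ => ?_
  simp only [c1, Bool.and_eq_true, List.any_eq_true, List.all_eq_true, List.mem_range]
  refine and_congr Iff.rfl ?_
  refine forall₂_congr fun j _ => ?_
  simp only [c2, List.all_eq_true, List.mem_range]
  refine forall₂_congr fun v _ => ?_
  simp only [c3, List.all_eq_true, List.mem_range]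
  refine forall₂_congr fun w _ => ?_
  exact c4_iff x u n (k + k + 5) i j v w

private theorem ver_iff (x u : List Bool) : ver (x, u) = true ↔
    (¬ ∃ n, GM x n) ∨ ∃ n, n * n = x.length ∧ ∃ k ≤ n, CM x u n k := by
  unfold ver
  simp only [Bool.or_eq_true, Bool.not_eq_true', List.any_eq_true, List.mem_range]
  refine or_congr ?_ ?_
  · rw [← isG_iff]
    simp
  · constructor
    · rintro ⟨n, -, h⟩
      simp only [cc, Bool.and_eq_true, decide_eq_true_eq, List.any_eq_true, List.mem_range] at h
      obtain ⟨h1, k, hk, h2⟩ := h
      exact ⟨n, h1, k, Nat.lt_succ_iff.1 hk, (c0_iff x u n k).1 h2⟩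
    · rintro ⟨n, h1, k, hk, h2⟩
      refine ⟨n, ?_, ?_⟩
      · rw [Nat.lt_succ_iff, ← h1]
        exact Nat.le_mul_self n
      · simp only [cc, Bool.and_eq_true, decide_eq_true_eq, List.any_eq_true, List.mem_range]
        exact ⟨h1, k, Nat.lt_succ_iff.2 hk, (c0_iff x u n k).2 h2⟩

private theorem eq_word {x : List Bool} {n : ℕ} (hn : n * n = x.length) :
    x = matrixWord n (fun i j => entry x n i j) := by
  apply eq_matrixWord hn.symm
  intro i j
  have hlt : i.val * n + j.val < x.length := by
    rw [← hn]
    have h1 : i.val + 1 ≤ n := i.2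
    have h2 := Nat.mul_le_mul_right n h1
    rw [Nat.add_one_mul] at h2
    have := j.2
    omega
  rw [List.getElem?_eq_getElem hlt]
  congr 1
  rw [Bool.eq_iff_iff]
  simp only [entry_iff]
  rw [List.getElem?_eq_getElem hlt, Option.some.injEq]

/-- Proof.  The certificate `u` has length `|x|` (`p = X`).  The verifier accepts `(x, u)` if `x`
is not the adjacency matrix of a graph (for no `n ≤ |x|` with `n * n = |x|` are all diagonal
entries zero and the matrix symmetric), or if there are `n ≤ |x|` with `n * n = |x|` and an odd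
`m` with `5 ≤ m ≤ n` (search in `List.range`) such that, with
`R i v` meaning `entry u n i v = true` (`entry` of `Pool.Agent.Lib.MP_8b4e11_lc.InNP`):
for all `i < m` there is `v < n` with `R i v`; `R i v` and `R j v` for `i j < m` imply `i = j`;
for all `i j < m` with `i + 1 = j ∨ i + 1 = j + m` and all `v w < n`, `R i v`, `R j w` imply
`entry x n v w = true`; for all `i j < m` with `i + 2 = j ∨ i + 2 = j + m` and all `v w < n`,
`R i v`, `R j w` imply `entry x n v w = false`.
If `x` is the matrix of a graph `G` with an odd cycle `y : ZMod (2 k + 1) → Fin n` without short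
diagonals, take `m = 2 k + 1 ≤ n` and `u = matrixWord n (fun i v => decide (i < m ∧ y i = v))`.
Conversely choose `y i` with `R i (y i)`. -/
theorem inNP_compl : InNP shortChordedGraphsᶜ := by
  classical
  refine ⟨Polynomial.X, ver, polyTimeDecidable_of_ptime pt_ver, fun x => ?_⟩
  simp only [Polynomial.eval_X, ver_iff]
  constructor
  · intro hx
    by_cases hG : ∃ n, GM x n
    · obtain ⟨n, hn, hg⟩ := hG
      let G : SimpleGraph (Fin n) :=
        { Adj := fun i j => entry x n i j = true
          symm := ⟨fun i j h => (hg i i.2).2 j j.2 h⟩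
          loopless := ⟨fun i h => by
            rw [(hg i i.2).1] at h
            exact Bool.false_ne_true h⟩ }
      have hns : ¬ ShortChorded G := fun hs =>
        hx ⟨n, G, fun i j => entry x n i j, fun _ _ => Iff.rfl, hs, eq_word hn⟩
      unfold ShortChorded at hns
      push Not at hns
      obtain ⟨k, hk, y, hinj, hadj, hnadj⟩ := hns
      have hcard : 2 * k + 1 ≤ n := by
        have h1 := Fintype.card_le_of_injective y hinj
        rwa [ZMod.card, Fintype.card_fin] at h1
      obtain ⟨k', rfl⟩ : ∃ k', k = k' + 2 := ⟨k - 2, by omega⟩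
      have hent : ∀ i, i < k' + k' + 5 → ∀ v, v < n →
          (entry (matrixWord n fun (i v : Fin n) =>
            decide (y (i.val : ZMod (2 * (k' + 2) + 1)) = v)) n i v = true ↔
            (y (i : ZMod (2 * (k' + 2) + 1))).val = v) := by
        intro i hi v hv
        rw [entry_matrixWord _ (show i < n by omega) hv, decide_eq_true_eq]
        exact Fin.ext_iff
      refine ⟨matrixWord n fun (i v : Fin n) =>
        decide (y (i.val : ZMod (2 * (k' + 2) + 1)) = v), ?_, Or.inr ⟨n, hn, k', by omega, ?_⟩⟩
      · rw [matrixWord_length, hn]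
      · intro i hi
        refine ⟨⟨(y (i : ZMod (2 * (k' + 2) + 1))).val, Fin.is_lt _,
          (hent i hi _ (Fin.is_lt _)).2 rfl⟩, fun j hj v hv w hw h1 h2 => ?_⟩
        rw [hent i hi v hv] at h1
        rw [hent j hj w hw] at h2
        subst h1
        subst h2
        have hm : ((2 * (k' + 2) + 1 : ℕ) : ZMod (2 * (k' + 2) + 1)) = 0 :=
          ZMod.natCast_self _
        refine ⟨?_, fun h3 => ?_, fun h3 => ?_⟩
        · by_cases hij : i = j
          · exact Or.inl hij
          · refine Or.inr fun h3 => hij ?_
            have h4 := hinj (Fin.ext h3)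
            rw [ZMod.natCast_eq_natCast_iff', Nat.mod_eq_of_lt (by omega),
              Nat.mod_eq_of_lt (by omega)] at h4
            exact h4
        · have h4 : (j : ZMod (2 * (k' + 2) + 1)) = (i : ZMod (2 * (k' + 2) + 1)) + 1 := by
            rcases h3 with h3 | h3
            · rw [← h3]
              push_cast
              ring
            · have h5 : i + 1 = j + (2 * (k' + 2) + 1) := by omega
              have h6 := congrArg (Nat.cast : ℕ → ZMod (2 * (k' + 2) + 1)) h5
              rw [Nat.cast_add j, hm, add_zero, Nat.cast_add, Nat.cast_one] at h6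
              exact h6.symm
          rw [h4]
          exact hadj _
        · have h4 : (j : ZMod (2 * (k' + 2) + 1)) = (i : ZMod (2 * (k' + 2) + 1)) + 2 := by
            rcases h3 with h3 | h3
            · rw [← h3]
              push_cast
              ring
            · have h5 : i + 2 = j + (2 * (k' + 2) + 1) := by omega
              have h6 := congrArg (Nat.cast : ℕ → ZMod (2 * (k' + 2) + 1)) h5
              rw [Nat.cast_add j, hm, add_zero, Nat.cast_add, Nat.cast_ofNat] at h6
              exact h6.symm
          rw [h4]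
          have h5 := hnadj (i : ZMod (2 * (k' + 2) + 1))
          exact Bool.eq_false_iff.2 h5
    · exact ⟨List.replicate x.length false, by simp, Or.inl hG⟩
  · rintro ⟨u, -, h⟩ ⟨n, G, A, hA, hS, rfl⟩
    have hGM : GM (matrixWord n A) n := by
      refine ⟨(matrixWord_length n A).symm, fun i hi => ⟨?_, fun j hj => ?_⟩⟩
      · rw [entry_matrixWord _ hi hi, Bool.eq_false_iff]
        intro h1
        exact G.loopless.irrefl _ ((hA _ _).1 h1)
      · rw [entry_matrixWord _ hi hj, entry_matrixWord _ hj hi, hA, hA]
        exact fun h1 => h1.symm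
    rcases h with h | ⟨n', hn', k, hk, hc⟩
    · exact h ⟨n, hGM⟩
    · rw [matrixWord_length] at hn'
      have hnn : n' = n := Nat.mul_self_inj.1 hn'
      subst hnn
      have hex : ∀ i : ℕ, ∃ v : Fin n', i < k + k + 5 → entry u n' i v = true := by
        have hn0 : 0 < n' := by
          obtain ⟨v, hv, -⟩ := (hc 0 (by omega)).1
          omega
        intro i
        by_cases hi : i < k + k + 5
        · obtain ⟨v, hv, h1⟩ := (hc i hi).1
          exact ⟨⟨v, hv⟩, fun _ => h1⟩
        · exact ⟨⟨0, hn0⟩, fun h1 => absurd h1 hi⟩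
      choose y hy using hex
      have hvlt : ∀ i : ZMod (2 * (k + 2) + 1), i.val < k + k + 5 := by
        intro i
        have := ZMod.val_lt i
        omega
      have hval : ∀ (i : ZMod (2 * (k + 2) + 1)) (a : ℕ), a < k + k + 5 →
          i.val + a = (i + (a : ZMod (2 * (k + 2) + 1))).val ∨
          i.val + a = (i + (a : ZMod (2 * (k + 2) + 1))).val + (k + k + 5) := by
        intro i a ha
        have h1 : (i + (a : ZMod (2 * (k + 2) + 1))).val = (i.val + a) % (2 * (k + 2) + 1) := by
          rw [ZMod.val_add, ZMod.val_natCast, Nat.add_mod_mod]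
        have h2 := ZMod.val_lt i
        rw [h1]
        by_cases h3 : i.val + a < 2 * (k + 2) + 1
        · left
          rw [Nat.mod_eq_of_lt h3]
        · right
          rw [Nat.mod_eq_sub_mod (by omega), Nat.mod_eq_of_lt (by omega)]
          omega
      have hinj : Function.Injective fun i : ZMod (2 * (k + 2) + 1) => y i.val := by
        intro a b hab
        have hab' : y a.val = y b.val := hab
        have h1 := ((hc a.val (hvlt a)).2 b.val (hvlt b) (y a.val) (y a.val).2
          (y b.val) (y b.val).2 (hy _ (hvlt _)) (hy _ (hvlt _))).1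
        rcases h1 with h1 | h1
        · exact ZMod.val_injective _ h1
        · exact absurd (congrArg Fin.val hab') h1
      have hadj : ∀ i : ZMod (2 * (k + 2) + 1), G.Adj (y i.val) (y (i + 1).val) := by
        intro i
        have h1 := ((hc i.val (hvlt i)).2 (i + 1).val (hvlt _) (y i.val) (y i.val).2
          (y (i + 1).val) (y (i + 1).val).2 (hy _ (hvlt _)) (hy _ (hvlt _))).2.1 (by
            have h2 := hval i 1 (by omega)
            rwa [Nat.cast_one] at h2)
        rw [entry_matrixWord _ (Fin.is_lt _) (Fin.is_lt _)] at h1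
        exact (hA _ _).1 h1
      obtain ⟨i, hi⟩ := hS (k + 2) (by omega) (fun i => y i.val) hinj hadj
      have h1 := ((hc i.val (hvlt i)).2 (i + 2).val (hvlt _) (y i.val) (y i.val).2
        (y (i + 2).val) (y (i + 2).val).2 (hy _ (hvlt _)) (hy _ (hvlt _))).2.2 (by
          have h2 := hval i 2 (by omega)
          rwa [Nat.cast_ofNat] at h2)
      rw [entry_matrixWord _ (Fin.is_lt _) (Fin.is_lt _)] at h1
      rw [← hA] at hi
      exact Bool.false_ne_true (h1.symm.trans hi)

end Pool.Agent.MP_007122_lc
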