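import Pool.Agent.Lib.MP_007122_lc.Graph
import Pool.Agent.Lib.CookLevin.TabTime

/-!
# MP_007122_lc: the system of hubs, items and routes of a 3SAT instance
-/

namespace Pool.Agent.MP_007122_lc

open Pool.Agent.CookLevin

/-- An occurrence of a literal: number of the clause, literal, number of the occurrence. -/
abbrev Oc (V : Type) := (ℕ × Lit V) × ℕ

/-- Hubs: `(none, j)` is the hub before clause `j`, and `(some o, i)` is the hub number `i` of the
occurrence `o`. -/
abbrev Hub (V : Type) := Option (Oc V) × ℕ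

variable {V : Type}

/-- The list of all occurrences of literals in clauses. -/
def occ (F : List (Cl V)) : List (Oc V) :=
  (F.zipIdx.flatMap fun p => [(p.2, p.1.1), (p.2, p.1.2.1), (p.2, p.1.2.2)]).zipIdx

/-- The hub number `i` of the strand of the occurrence `o`, `0 ≤ i ≤ N`; the strand runs from the
hub before the clause of `o` to the hub after the clause of `o`. -/
def hubAt (N : ℕ) (o : Oc V) (i : ℕ) : Hub V :=
  if i = 0 then (none, o.1.1) else if i = N then (none, o.1.1 + 1) else (some o, i)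

/-- The hub set of the route `(o, o')`, which is the step number `o'.2` of the strand of `o`. -/
def hs (N : ℕ) (r : Oc V × Oc V) (k : Hub V) : Prop :=
  k = hubAt N r.1 r.2.2 ∨ k = hubAt N r.1 (r.2.2 + 1)

/-- `o` and `o'` are occurrences of opposite literals, `o` negative and `o'` positive. -/
def Opp (o o' : Oc V) : Prop := o.1.2.1 = o'.1.2.1 ∧ o.1.2.2 = false ∧ o'.1.2.2 = true

instance [DecidableEq V] (o o' : Oc V) : Decidable (Opp o o') := by
  unfold Opp
  infer_instance

/-- The item of a route: the routes `(o, o')` and `(o', o)` have the same item if `o`, `o'` are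
occurrences of opposite literals, and all other routes have their own items. -/
def item [DecidableEq V] (r : Oc V × Oc V) : Oc V × Oc V := if Opp r.1 r.2 then (r.2, r.1) else r

theorem occ_clause {F : List (Cl V)} {o : Oc V} (h : o ∈ occ F) :
    ∃ c, F[o.1.1]? = some c ∧ (o.1.2 = c.1 ∨ o.1.2 = c.2.1 ∨ o.1.2 = c.2.2) := by
  have h1 := List.mem_of_getElem? (List.mem_zipIdx_iff_getElem?.1 h)
  obtain ⟨p, hp, hp2⟩ := List.mem_flatMap.1 h1
  have hp' := List.mem_zipIdx_iff_getElem?.1 hp
  simp only [List.mem_cons, List.not_mem_nil, or_false] at hp2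
  refine ⟨p.1, ?_, ?_⟩
  · rcases hp2 with e | e | e <;> rw [e] <;> exact hp'
  · rcases hp2 with e | e | e <;> rw [e] <;> simp

theorem exists_occ {F : List (Cl V)} {j : ℕ} {c : Cl V} (h : F[j]? = some c) {l : Lit V}
    (hl : l = c.1 ∨ l = c.2.1 ∨ l = c.2.2) : ∃ o ∈ occ F, o.1.1 = j ∧ o.1.2 = l := by
  have h1 : (j, l) ∈ F.zipIdx.flatMap
      fun p => [(p.2, p.1.1), (p.2, p.1.2.1), (p.2, p.1.2.2)] := by
    refine List.mem_flatMap.2 ⟨(c, j), List.mem_zipIdx_iff_getElem?.2 h, ?_⟩
    rcases hl with e | e | e <;> rw [e] <;> simp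
  obtain ⟨i, hi⟩ := List.getElem?_of_mem h1
  exact ⟨((j, l), i), List.mem_zipIdx_iff_getElem?.2 hi, rfl, rfl⟩

theorem occ_inj {F : List (Cl V)} {o o' : Oc V} (h : o ∈ occ F) (h' : o' ∈ occ F)
    (e : o.2 = o'.2) : o = o' := by
  have h1 := List.mem_zipIdx_iff_getElem?.1 h
  have h2 := List.mem_zipIdx_iff_getElem?.1 h'
  rw [e, h2] at h1
  exact Prod.ext (Option.some.inj h1).symm e

theorem occ_lt {F : List (Cl V)} {o : Oc V} (h : o ∈ occ F) : o.2 < (occ F).length := by
  have h1 := List.mem_zipIdx_iff_getElem?.1 h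
  obtain ⟨hlt, -⟩ := List.getElem?_eq_some_iff.1 h1
  unfold occ
  rw [List.length_zipIdx]
  exact hlt

theorem occ_surj {F : List (Cl V)} {i : ℕ} (h : i < (occ F).length) : ∃ o ∈ occ F, o.2 = i := by
  unfold occ at h ⊢
  rw [List.length_zipIdx] at h
  exact ⟨(_, i), List.mem_zipIdx_iff_getElem?.2 (List.getElem?_eq_getElem h), rfl⟩

theorem occ_nodup (F : List (Cl V)) : (occ F).Nodup :=
  List.Nodup.of_map _ (List.nodup_zipIdx_map_snd _)

end Pool.Agent.MP_007122_lc
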