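import Pool.Agent.Lib.MP_007122_lc.Back

/-!
# MP_007122_lc: from an odd cycle without short diagonals to a path of hubs, conclusion
-/

namespace Pool.Agent.MP_007122_lc

variable {K I R : Type} {S : R → K → Prop} {it : R → I} {s t : K} {n : ℕ} {z : ℕ → Vx K I R}

/-- Some vertex of the cycle is a hub.  Proof: look at `z 1`: if it is a route, `z 2` is an end of
its item (`rt_mid`) and `en_mid` (at `m = 1`, as `z 1` is a route) shows that `z 3` is a hub; an
end: `en_mid`; `va`, `vb`: `va_mid`, `vb_mid`. -/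
theorem exists_hub (h : OddSeq (Gr S it s t) n z) (hn : 5 ≤ n) : ∃ m k, z m = .hub k := by
  rcases h1 : z 1 with k | ⟨i, b⟩ | r | _ | _
  · exact ⟨1, k, h1⟩
  · rcases en_mid h hn (m := 0) h1 with ⟨k, r, h2, -⟩ | ⟨k, r, -, h2, -⟩
    · exact ⟨_, k, h2⟩
    · exact ⟨_, k, h2⟩
  · obtain ⟨b, -, h2⟩ := rt_mid h hn (m := 0) h1
    rcases en_mid h hn (m := 1) h2 with ⟨k, r, h2, -⟩ | ⟨k, r, -, h2, -⟩
    · exact ⟨_, k, h2⟩
    · exact ⟨_, k, h2⟩
  · rcases va_mid h hn (m := 0) h1 with ⟨h2, -⟩ | ⟨-, h2⟩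
    · exact ⟨_, s, h2⟩
    · exact ⟨_, s, h2⟩
  · rcases vb_mid h hn (m := 0) h1 with ⟨h2, -⟩ | ⟨-, h2⟩
    · exact ⟨_, t, h2⟩
    · exact ⟨_, t, h2⟩

private theorem OddSeq.per_mul {V : Type} {G : SimpleGraph V} {n : ℕ} {z : ℕ → V}
    (h : OddSeq G n z) (m c : ℕ) : z (m + c * n) = z m := by
  induction c with
  | zero => rw [zero_mul, add_zero]
  | succ c ih => rw [add_mul, one_mul, ← add_assoc, h.per, ih]

private theorem OddSeq.eq_of {V : Type} {G : SimpleGraph V} {n : ℕ} {z : ℕ → V}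
    (h : OddSeq G n z) {m m' : ℕ} (c : ℕ) (e : m' = m + c * n) : z m' = z m := by
  rw [e, h.per_mul]

private theorem OddSeq.lt_inj {V : Type} {G : SimpleGraph V} {n : ℕ} {z : ℕ → V}
    (h : OddSeq G n z) {a b : ℕ} (ha : a < n) (hb : b < n) (e : z a = z b) : a = b := by
  have h1 := h.inj a b e
  rwa [Nat.mod_eq_of_lt ha, Nat.mod_eq_of_lt hb] at h1

private theorem OddSeq.shift {V : Type} {G : SimpleGraph V} {n : ℕ} {z : ℕ → V}
    (h : OddSeq G n z) (c : ℕ) : OddSeq G n (fun j => z (c + j)) where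
  per m := by
    rw [← add_assoc, h.per]
  inj a b hab := Nat.ModEq.add_left_cancel' c (h.inj (c + a) (c + b) hab)
  adj m := h.adj (c + m)
  nadj m := h.nadj (c + m)

private theorem OddSeq.rev {V : Type} {G : SimpleGraph V} {n : ℕ} {z : ℕ → V}
    (h : OddSeq G n z) (hn : 1 ≤ n) (c : ℕ) : OddSeq G n (fun j => z (c + j * (n - 1))) where
  per m := by
    exact h.eq_of (n - 1) (by ring)
  inj a b hab := by
    obtain ⟨n, rfl⟩ : ∃ n', n = n' + 1 := ⟨n - 1, by omega⟩
    rw [Nat.add_sub_cancel] at hab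
    have h1 : a * n ≡ b * n [MOD (n + 1)] := Nat.ModEq.add_left_cancel' c (h.inj _ _ hab)
    have h2 : a * n + (a + b) ≡ b * n + (a + b) [MOD (n + 1)] := h1.add_right _
    have h3 : b ≡ a * n + (a + b) [MOD (n + 1)] := by
      have e : a * n + (a + b) = b + a * (n + 1) := by ring
      rw [e]
      exact (Nat.add_mul_mod_self_right b a (n + 1)).symm
    have h4 : a ≡ b * n + (a + b) [MOD (n + 1)] := by
      have e : b * n + (a + b) = a + b * (n + 1) := by ring
      rw [e]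
      exact (Nat.add_mul_mod_self_right a b (n + 1)).symm
    exact h4.trans (h2.symm.trans h3.symm)
  adj m := by
    have h1 := h.adj (c + (m + 1) * (n - 1))
    have e : z (c + (m + 1) * (n - 1) + 1) = z (c + m * (n - 1)) := by
      refine h.eq_of 1 ?_
      rw [add_mul, one_mul, one_mul]
      omega
    rw [e] at h1
    exact h1.symm
  nadj m := by
    have h1 := h.nadj (c + (m + 2) * (n - 1))
    have e : z (c + (m + 2) * (n - 1) + 2) = z (c + m * (n - 1)) := by
      refine h.eq_of 2 ?_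
      rw [add_mul]
      omega
    rw [e] at h1
    exact fun h2 => h1 h2.symm

/-- The cycle contains `va` or `vb`.  Proof: otherwise, by `hub_next`, with `z m` also
`z (m + 4)` is a hub, hence `z (m + 4 j)` for all `j`; as `n` is odd there is `j` with
`4 j % n = 1` (for `n = 4 q + 1` take `j = 3 q + 1`, for `n = 4 q + 3` take `j = q + 1`), so
`z (m + 1)` is a hub too, against `no_hub_hub`. -/
theorem exists_extra (h : OddSeq (Gr S it s t) n z) (hn : 5 ≤ n) (hodd : n % 2 = 1) :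
    ∃ m, z m = .va ∨ z m = .vb := by
  by_contra hcon
  push Not at hcon
  obtain ⟨m, k, hk⟩ := exists_hub h hn
  have step : ∀ j : ℕ, ∃ k, z (m + 4 * j) = .hub k := by
    intro j
    induction j with
    | zero => exact ⟨k, hk⟩
    | succ j ih =>
      obtain ⟨k, hk⟩ := ih
      rcases hub_next h hn hk with ⟨r, k', b, -, -, -, h4, -⟩ | ⟨h1, -⟩ | ⟨h1, -⟩
      · exact ⟨k', h4⟩
      · exact absurd h1 (hcon _).1
      · exact absurd h1 (hcon _).2
  have h1 : ∃ k', z (m + 1) = .hub k' := by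
    have h2 : n % 4 = 1 ∨ n % 4 = 3 := by omega
    rcases h2 with h2 | h2
    · obtain ⟨k', hk'⟩ := step (3 * (n / 4) + 1)
      refine ⟨k', ?_⟩
      rw [← hk']
      exact (h.eq_of 3 (by omega)).symm
    · obtain ⟨k', hk'⟩ := step (n / 4 + 1)
      refine ⟨k', ?_⟩
      rw [← hk']
      exact (h.eq_of 1 (by omega)).symm
  obtain ⟨k', hk'⟩ := h1
  exact no_hub_hub h hn hk hk'

/-- The path of hubs, if the cycle runs through `vb` directly before the hub `t = z 0`.
Proof.  `n = 4 M + 1` or `n = 4 M + 3`.  By induction on `j`: if `4 j ≤ n` then `z (4 j)` is a hub.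
Step: `4 (j + 1) ≤ n`; `z (4 j)` is a hub; in `hub_next` the second and third case are impossible,
since `z (4 j + 1)` would be equal to `z (n - 2)` or `z (n - 1)` (which are `va`, `vb`), but
`4 j + 1 < n - 2`.  If `n = 4 M + 1`, then `z (n - 1) = vb` is a hub, a contradiction.  So
`n = 4 M + 3`, `z (4 M) = z (n - 3) = hub s`.  Choose `k j` with `z (4 j) = hub (k j)` for
`j ≤ M` and `r j` with `z (4 j + 2) = rt (r j)`, `z (4 j + 1) = en (it (r j)) b`,
`z (4 j + 3) = en (it (r j)) (!b)` for `j < M` by `hub_next`.  `injk` and `injr` follow from `inj`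
(the two ends of an item can be at the positions `4 j + 1`, `4 j + 3` for only one `j`). -/
theorem path_of_start (h : OddSeq (Gr S it s t) n z) (hn : 5 ≤ n) (hodd : n % 2 = 1)
    (h0 : z 0 = .hub t) (h1 : z (n - 1) = .vb) (h2 : z (n - 2) = .va) (h3 : z (n - 3) = .hub s) :
    ∃ M k r, HubPath S it s t M k r ∧ ∀ j < M, ∃ m, z m = .rt (r j) := by
  have next : ∀ j k, 4 * (j + 1) ≤ n → z (4 * j) = .hub k →
      ∃ r k' b, z (4 * j + 1) = .en (it r) b ∧ z (4 * j + 2) = .rt r ∧
        z (4 * j + 3) = .en (it r) (!b) ∧ z (4 * j + 4) = .hub k' ∧ S r k ∧ S r k' := by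
    intro j k hj hk
    rcases hub_next h hn hk with h4 | ⟨h4, -⟩ | ⟨h4, -⟩
    · exact h4
    · exfalso
      have := h.lt_inj (by omega) (by omega) (h4.trans h2.symm)
      omega
    · exfalso
      have := h.lt_inj (by omega) (by omega) (h4.trans h1.symm)
      omega
  have hub : ∀ j, 4 * j ≤ n → ∃ k, z (4 * j) = .hub k := by
    intro j
    induction j with
    | zero => exact fun _ => ⟨t, h0⟩
    | succ j ih =>
      intro hj
      obtain ⟨k, hk⟩ := ih (by omega)
      obtain ⟨r, k', b, -, -, -, h4, -⟩ := next j k hj hk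
      exact ⟨k', h4⟩
  obtain ⟨M, hM⟩ : ∃ M, n = 4 * M + 3 := by
    have h4 : n % 4 = 1 ∨ n % 4 = 3 := by omega
    rcases h4 with h4 | h4
    · exfalso
      obtain ⟨k, hk⟩ := hub (n / 4) (by omega)
      have e : 4 * (n / 4) = n - 1 := by omega
      rw [e, h1] at hk
      cases hk
    · exact ⟨n / 4, by omega⟩
  obtain ⟨r0, -⟩ := next 0 t (by omega) h0
  let kf : Vx K I R → K := fun v => match v with
    | .hub k => k
    | _ => t
  let rf : Vx K I R → R := fun v => match v with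
    | .rt r => r
    | _ => r0
  have hub' : ∀ j ≤ M, z (4 * j) = .hub (kf (z (4 * j))) := by
    intro j hj
    obtain ⟨k, hk⟩ := hub j (by omega)
    rw [hk]
  have next' : ∀ j < M, ∃ b, z (4 * j + 1) = .en (it (rf (z (4 * j + 2)))) b ∧
      z (4 * j + 2) = .rt (rf (z (4 * j + 2))) ∧
      z (4 * j + 3) = .en (it (rf (z (4 * j + 2)))) (!b) ∧
      S (rf (z (4 * j + 2))) (kf (z (4 * j))) ∧
      S (rf (z (4 * j + 2))) (kf (z (4 * (j + 1)))) := by
    intro j hj
    obtain ⟨r, k', b, e1, e2, e3, e4, s1, s2⟩ := next j _ (by omega) (hub' j hj.le)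
    have e5 : rf (z (4 * j + 2)) = r := by rw [e2]
    have e6 : kf (z (4 * (j + 1))) = k' := by
      have e7 : z (4 * (j + 1)) = .hub k' := e4
      rw [e7]
    rw [e5, e6]
    exact ⟨b, e1, e2, e3, s1, s2⟩
  refine ⟨M, fun j => kf (z (4 * j)), fun j => rf (z (4 * j + 2)), ⟨?_, ?_, ?_, ?_, ?_, ?_⟩, ?_⟩
  · change kf (z 0) = t
    rw [h0]
  · have e : 4 * M = n - 3 := by omega
    rw [e, h3]
  · intro j hj
    obtain ⟨b, -, -, -, s1, -⟩ := next' j hj
    exact s1
  · intro j hj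
    obtain ⟨b, -, -, -, -, s2⟩ := next' j hj
    exact s2
  · intro i hi j hj hij
    have e : z (4 * i) = z (4 * j) := by
      rw [hub' i hi, hub' j hj]
      exact congrArg _ hij
    have := h.lt_inj (by omega) (by omega) e
    omega
  · intro i hi j hj hij
    obtain ⟨b, e1, -, -, -, -⟩ := next' i hi
    obtain ⟨b', e1', -, e3', -, -⟩ := next' j hj
    change it (rf (z (4 * i + 2))) = it (rf (z (4 * j + 2))) at hij
    rw [hij] at e1
    by_cases hb : b = b'
    · rw [hb] at e1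
      have := h.lt_inj (by omega) (by omega) (e1.trans e1'.symm)
      omega
    · have hb0 : ∀ c c' : Bool, ¬ c = c' → (!c') = c := by decide
      have hb' : (!b') = b := hb0 b b' hb
      rw [hb'] at e3'
      have := h.lt_inj (by omega) (by omega) (e1.trans e3'.symm)
      omega
  · intro j hj
    obtain ⟨b, -, e2, -⟩ := next' j hj
    exact ⟨_, e2⟩

/-- The path of hubs.  Proof: by `exists_extra` and `va_mid`, `vb_mid` there is `m` with
`(z m, z (m + 1), z (m + 2), z (m + 3)) = (hub s, va, vb, hub t)` or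
`(hub t, vb, va, hub s)` (positions may be shifted by multiples of `n`).  In the first case apply
`path_of_start` to `z' j = z (m + 3 + j)`; in the second case to the reversed cycle
`z' j = z (m + j * (n - 1))`, which satisfies `OddSeq` as well (`j * (n - 1) ≡ - j` modulo `n`). -/
theorem exists_path (h : OddSeq (Gr S it s t) n z) (hn : 5 ≤ n) (hodd : n % 2 = 1) :
    ∃ M k r, HubPath S it s t M k r ∧ ∀ j < M, ∃ m, z m = .rt (r j) := by
  have hva : ∃ m, z m = .va := by
    obtain ⟨m, hm | hm⟩ := exists_extra h hn hodd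
    · exact ⟨m, hm⟩
    · have e : z (m + n - 1 + 1) = .vb := by
        rw [← hm]
        exact h.eq_of 1 (by omega)
      rcases vb_mid h hn e with ⟨-, h1⟩ | ⟨h1, -⟩
      · exact ⟨_, h1⟩
      · exact ⟨_, h1⟩
  have key : ∃ m, (z m = .hub s ∧ z (m + 1) = .va ∧ z (m + 2) = .vb ∧ z (m + 3) = .hub t) ∨
      (z m = .hub t ∧ z (m + 1) = .vb ∧ z (m + 2) = .va ∧ z (m + 3) = .hub s) := by
    obtain ⟨m, hm⟩ := hva
    obtain ⟨l, hl⟩ : ∃ l, z (l + 2) = .va := by
      refine ⟨m + n - 2, ?_⟩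
      rw [← hm]
      exact h.eq_of 1 (by omega)
    rcases va_mid h hn (m := l + 1) hl with ⟨h1, h2⟩ | ⟨h1, h2⟩
    · rcases vb_mid h hn (m := l + 2) h2 with ⟨h3, -⟩ | ⟨-, h3⟩
      · rw [hl] at h3
        cases h3
      · exact ⟨l + 1, Or.inl ⟨h1, hl, h2, h3⟩⟩
    · rcases vb_mid h hn (m := l) h1 with ⟨h3, -⟩ | ⟨-, h3⟩
      · exact ⟨l, Or.inr ⟨h3, h1, hl, h2⟩⟩
      · rw [hl] at h3
        cases h3
  obtain ⟨m, ⟨e0, e1, e2, e3⟩ | ⟨e0, e1, e2, e3⟩⟩ := key
  · obtain ⟨M, k, r, hp, hr⟩ := path_of_start (h.shift (m + 3)) hn hodd e3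
      (by rw [← e2]; exact h.eq_of 1 (by omega)) (by rw [← e1]; exact h.eq_of 1 (by omega))
      (by rw [← e0]; exact h.eq_of 1 (by omega))
    refine ⟨M, k, r, hp, fun j hj => ?_⟩
    obtain ⟨l, hl⟩ := hr j hj
    exact ⟨_, hl⟩
  · have f0 : z (m + 0 * (n - 1)) = .hub t := by rw [zero_mul, add_zero, e0]
    have f1 : z (m + (n - 1) * (n - 1)) = .vb := by
      rw [← e1]
      obtain ⟨q, rfl⟩ : ∃ q, n = q + 5 := ⟨n - 5, by omega⟩
      refine h.eq_of (q + 3) ?_
      rw [show q + 5 - 1 = q + 4 by omega]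
      ring
    have f2 : z (m + (n - 2) * (n - 1)) = .va := by
      rw [← e2]
      obtain ⟨q, rfl⟩ : ∃ q, n = q + 5 := ⟨n - 5, by omega⟩
      refine h.eq_of (q + 2) ?_
      rw [show q + 5 - 1 = q + 4 by omega, show q + 5 - 2 = q + 3 by omega]
      ring
    have f3 : z (m + (n - 3) * (n - 1)) = .hub s := by
      rw [← e3]
      obtain ⟨q, rfl⟩ : ∃ q, n = q + 5 := ⟨n - 5, by omega⟩
      refine h.eq_of (q + 1) ?_
      rw [show q + 5 - 1 = q + 4 by omega, show q + 5 - 3 = q + 2 by omega]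
      ring
    obtain ⟨M, k, r, hp, hr⟩ := path_of_start (h.rev (by omega) m) hn hodd f0 f1 f2 f3
    refine ⟨M, k, r, hp, fun j hj => ?_⟩
    obtain ⟨l, hl⟩ := hr j hj
    exact ⟨_, hl⟩

end Pool.Agent.MP_007122_lc
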