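import Pool.Agent.Lib.MP_007122_lc.Defs

/-!
# MP_007122_lc: odd cycles without short diagonals as periodic sequences
-/

namespace Pool.Agent.MP_007122_lc

/-- `z` runs periodically through a cycle of length `n` of `G` without short diagonals. -/
structure OddSeq {V : Type} (G : SimpleGraph V) (n : ℕ) (z : ℕ → V) : Prop where
  per : ∀ m, z (m + n) = z m
  inj : ∀ a b, z a = z b → a % n = b % n
  adj : ∀ m, G.Adj (z m) (z (m + 1))
  nadj : ∀ m, ¬ G.Adj (z m) (z (m + 2))

theorem OddSeq.mod {V : Type} {G : SimpleGraph V} {n : ℕ} {z : ℕ → V} (h : OddSeq G n z) (m : ℕ) :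
    z (m % n) = z m := by
  have key : ∀ q a : ℕ, z (a + n * q) = z a := by
    intro q
    induction q with
    | zero => intro a; simp
    | succ q ih =>
      intro a
      rw [Nat.mul_succ, ← Nat.add_assoc, h.per, ih]
  conv_rhs => rw [← Nat.mod_add_div m n]
  rw [key]

/-- Proof.  Left to right: unfold `ShortChorded`, take `x`, put `z m = x (m : ZMod (2 k + 1))`
(`Nat.cast_add`, `ZMod.natCast_self`, `ZMod.natCast_eq_natCast_iff'`).  Right to left: put
`x i = z i.val`; by periodicity `z (a % n) = z a`, and `(i + 1).val = (i.val + 1) % n`,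
`(i + 2).val = (i.val + 2) % n` (`ZMod.val_add`, `ZMod.val_natCast`), injectivity from `inj` and
`ZMod.val_lt`. -/
theorem not_shortChorded_iff {V : Type} (G : SimpleGraph V) :
    ¬ ShortChorded G ↔ ∃ k, 2 ≤ k ∧ ∃ z, OddSeq G (2 * k + 1) z := by
  constructor
  · intro h
    unfold ShortChorded at h
    push Not at h
    obtain ⟨k, hk, x, hx, ha, hna⟩ := h
    refine ⟨k, hk, fun m => x (m : ZMod (2 * k + 1)), fun m => ?_, fun a b hab => ?_, fun m => ?_,
      fun m => ?_⟩
    · show x ((m + (2 * k + 1) : ℕ) : ZMod (2 * k + 1)) = _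
      rw [Nat.cast_add, ZMod.natCast_self, add_zero]
    · exact (ZMod.natCast_eq_natCast_iff' a b (2 * k + 1)).1 (hx hab)
    · have := ha (m : ZMod (2 * k + 1))
      show G.Adj _ (x ((m + 1 : ℕ) : ZMod (2 * k + 1)))
      rw [Nat.cast_add, Nat.cast_one]
      exact this
    · have := hna (m : ZMod (2 * k + 1))
      show ¬ G.Adj _ (x ((m + 2 : ℕ) : ZMod (2 * k + 1)))
      rw [Nat.cast_add, Nat.cast_ofNat]
      exact this
  · rintro ⟨k, hk, z, h⟩ hS
    have e1 : ∀ i : ZMod (2 * k + 1), z (i + 1).val = z (i.val + 1) := by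
      intro i
      rw [← h.mod (i.val + 1), ZMod.val_add, ZMod.val_one'' (by omega)]
    have e2 : ∀ i : ZMod (2 * k + 1), z (i + 2).val = z (i.val + 2) := by
      intro i
      rw [← h.mod (i.val + 2), ZMod.val_add]
      have : (2 : ZMod (2 * k + 1)).val = 2 := by
        have := ZMod.val_natCast (2 * k + 1) 2
        rw [Nat.mod_eq_of_lt (by omega)] at this
        exact_mod_cast this
      rw [this]
    obtain ⟨i, hi⟩ := hS k hk (fun i => z i.val) (fun i j hij => by
      have := h.inj _ _ hij
      rw [Nat.mod_eq_of_lt (ZMod.val_lt i), Nat.mod_eq_of_lt (ZMod.val_lt j)] at this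
      exact ZMod.val_injective _ this) (fun i => by
        show G.Adj (z i.val) (z (i + 1).val)
        rw [e1]
        exact h.adj _)
    change G.Adj (z i.val) (z (i + 2).val) at hi
    rw [e2] at hi
    exact h.nadj _ hi

/-- Cycles of a graph pulled back along an injective map. -/
theorem OddSeq.of_comap {V W : Type} {G : SimpleGraph V} {f : W → V} (hf : Function.Injective f)
    {n : ℕ} {z : ℕ → W} (h : OddSeq (G.comap f) n z) : OddSeq G n (fun m => f (z m)) :=
  ⟨fun m => by rw [h.per], fun a b hab => h.inj a b (hf hab), fun m => h.adj m, fun m => h.nadj m⟩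

/-- Cycles of the graph with all vertices in the range of `f` lift to the pulled back graph. -/
theorem OddSeq.to_comap {V W : Type} {G : SimpleGraph V} {f : W → V} (hf : Function.Injective f)
    {n : ℕ} {z : ℕ → V} (h : OddSeq G n z) (hz : ∀ m, z m ∈ Set.range f) :
    ∃ w, OddSeq (G.comap f) n w := by
  choose w hw using hz
  refine ⟨w, fun m => hf (by rw [hw, hw, h.per]), fun a b hab => h.inj a b (by rw [← hw, ← hw, hab]),
    fun m => ?_, fun m => ?_⟩
  · show G.Adj (f (w m)) (f (w (m + 1)))
    rw [hw, hw]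
    exact h.adj m
  · show ¬ G.Adj (f (w m)) (f (w (m + 2)))
    rw [hw, hw]
    exact h.nadj m

end Pool.Agent.MP_007122_lc
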