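import Pool.Agent.Lib.MP_007122_lc.Inst
import Pool.Agent.Lib.MP_8b4e11_lc.Matrix

/-!
# MP_007122_lc: the adjacency matrix of the graph of a 3SAT instance
-/

namespace Pool.Agent.MP_007122_lc

open Pool.Agent.CookLevin
open Pool.Agent.Lib.MP_8b4e11_lc (matrixWord)

variable {V : Type}

/-- Codes of vertices: a tag, a hub and a pair of occurrences. -/
abbrev Wx (V : Type) := Fin 6 × (Hub V × (Oc V × Oc V))

/-- The vertex with a given code. -/
def dec (w : Wx V) : Vx (Hub V) (Oc V × Oc V) (Oc V × Oc V) :=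
  match w.1 with
  | 0 => .hub w.2.1
  | 1 => .en w.2.2 true
  | 2 => .en w.2.2 false
  | 3 => .rt w.2.2
  | 4 => .va
  | 5 => .vb

/-- The codes of all vertices of the graph of `F` (`o₀` is an arbitrary occurrence). -/
def verts (o₀ : Oc V) (F : List (Cl V)) : List (Wx V) :=
  ((List.range (F.length + 1)).map fun j => ((0 : Fin 6), ((none, j), (o₀, o₀)))) ++
  (((occ F).flatMap fun o => (List.range (occ F).length).map fun i =>
    ((0 : Fin 6), ((some o, i), (o₀, o₀)))) ++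
  (((occ F).flatMap fun o => (occ F).map fun o' => ((1 : Fin 6), ((none, 0), (o, o')))) ++
  (((occ F).flatMap fun o => (occ F).map fun o' => ((2 : Fin 6), ((none, 0), (o, o')))) ++
  (((occ F).flatMap fun o => (occ F).map fun o' => ((3 : Fin 6), ((none, 0), (o, o')))) ++
  [((4 : Fin 6), ((none, 0), (o₀, o₀))), ((5 : Fin 6), ((none, 0), (o₀, o₀)))]))))

/-- Half of the adjacency relation, as a Boolean function (`N` the number of occurrences, `m` the
number of clauses). -/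
def halfB [DecidableEq V] (N m : ℕ) (u v : Wx V) : Bool :=
  (decide (u.1 = 0) &&
    ((decide (v.1 = 0) && !decide (u.2.1 = v.2.1)) ||
    ((decide (v.1 = 1) || decide (v.1 = 2)) ||
    ((decide (v.1 = 3) && (!decide (u.2.1 = hubAt N v.2.2.1 v.2.2.2.2) &&
      !decide (u.2.1 = hubAt N v.2.2.1 (v.2.2.2.2 + 1)))) ||
    ((decide (v.1 = 4) && !decide (u.2.1 = (none, 0))) ||
    (decide (v.1 = 5) && !decide (u.2.1 = (none, m)))))))) ||
  (((decide (u.1 = 1) || decide (u.1 = 2)) && (decide (v.1 = 3) &&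
    decide (item v.2.2 = u.2.2))) ||
  (decide (u.1 = 4) && decide (v.1 = 5)))

/-- The adjacency matrix, as a word. -/
def wordOf [DecidableEq V] (o₀ : Oc V) (F : List (Cl V)) : List Bool :=
  (verts o₀ F).flatMap fun u => (verts o₀ F).map fun v =>
    halfB (occ F).length F.length u v || halfB (occ F).length F.length v u

/-- The graph of `F`. -/
abbrev GrF [DecidableEq V] (F : List (Cl V)) :
    SimpleGraph (Vx (Hub V) (Oc V × Oc V) (Oc V × Oc V)) :=
  Gr (hs (occ F).length) item (none, F.length) (none, 0)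

/-- The vertex number `i`. -/
def vtx (o₀ : Oc V) (F : List (Cl V)) (i : Fin (verts o₀ F).length) :
    Vx (Hub V) (Oc V × Oc V) (Oc V × Oc V) := dec ((verts o₀ F).get i)

theorem halfB_iff [DecidableEq V] (N m : ℕ) (u v : Wx V) : halfB N m u v = true ↔
    half (hs N) item (none, m) (none, 0) (dec u) (dec v) := by
  obtain ⟨a, h, p⟩ := u
  obtain ⟨b, h', p'⟩ := v
  fin_cases a <;> fin_cases b <;> simp [halfB, dec, half, hs]

theorem wordOf_eq [DecidableEq V] (o₀ : Oc V) (F : List (Cl V)) :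
    wordOf o₀ F = matrixWord (verts o₀ F).length fun i j =>
      (halfB (occ F).length F.length ((verts o₀ F).get i) ((verts o₀ F).get j) ||
        halfB (occ F).length F.length ((verts o₀ F).get j) ((verts o₀ F).get i)) := by
  unfold wordOf matrixWord
  have h : ∀ (l : List (Wx V)) {β : Type} (g : Wx V → β),
      List.ofFn (fun i => g (l.get i)) = l.map g := by
    intro l β g
    change List.ofFn (g ∘ l.get) = _
    rw [← List.map_ofFn, List.ofFn_get]
  rw [h (verts o₀ F) (fun u => List.ofFn fun j =>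
    (halfB (occ F).length F.length u ((verts o₀ F).get j) ||
      halfB (occ F).length F.length ((verts o₀ F).get j) u)), List.flatMap_def]
  congr 2
  funext u
  exact (h (verts o₀ F) (fun v => halfB (occ F).length F.length u v ||
    halfB (occ F).length F.length v u)).symm

/-- The code of a vertex. -/
private def Word_cod (o₀ : Oc V) : Vx (Hub V) (Oc V × Oc V) (Oc V × Oc V) → Wx V
  | .hub k => (0, (k, (o₀, o₀)))
  | .en p true => (1, ((none, 0), p))
  | .en p false => (2, ((none, 0), p))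
  | .rt p => (3, ((none, 0), p))
  | .va => (4, ((none, 0), (o₀, o₀)))
  | .vb => (5, ((none, 0), (o₀, o₀)))

private theorem Word_mem (o₀ : Oc V) (F : List (Cl V)) (w : Wx V) : w ∈ verts o₀ F ↔
    (∃ j < F.length + 1, ((0 : Fin 6), ((none, j), (o₀, o₀))) = w) ∨
    (∃ o ∈ occ F, ∃ i < (occ F).length, ((0 : Fin 6), ((some o, i), (o₀, o₀))) = w) ∨
    (∃ o ∈ occ F, ∃ o' ∈ occ F, ((1 : Fin 6), ((none, 0), (o, o'))) = w) ∨
    (∃ o ∈ occ F, ∃ o' ∈ occ F, ((2 : Fin 6), ((none, 0), (o, o'))) = w) ∨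
    (∃ o ∈ occ F, ∃ o' ∈ occ F, ((3 : Fin 6), ((none, 0), (o, o'))) = w) ∨
    (w = ((4 : Fin 6), ((none, 0), (o₀, o₀))) ∨ w = ((5 : Fin 6), ((none, 0), (o₀, o₀)))) := by
  unfold verts
  simp only [List.mem_append, List.mem_map, List.mem_flatMap, List.mem_range, List.mem_cons,
    List.not_mem_nil, or_false]

private theorem Word_cod_dec (o₀ : Oc V) (F : List (Cl V)) {w : Wx V} (hw : w ∈ verts o₀ F) :
    Word_cod o₀ (dec w) = w := by
  rw [Word_mem] at hw
  rcases hw with ⟨j, -, rfl⟩ | ⟨o, -, i, -, rfl⟩ | ⟨o, -, o', -, rfl⟩ | ⟨o, -, o', -, rfl⟩ |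
    ⟨o, -, o', -, rfl⟩ | rfl | rfl <;> rfl

private theorem Word_pairs {α β γ : Type} {l : List α} {l' : List β} (hl : l.Nodup)
    (hl' : l'.Nodup) (g : α → β → γ) (hg : ∀ a b a' b', g a b = g a' b' → a = a' ∧ b = b') :
    (l.flatMap fun a => l'.map (g a)).Nodup := by
  rw [List.nodup_flatMap]
  refine ⟨fun a _ => hl'.map fun b b' h => (hg a b a b' h).2, ?_⟩
  refine hl.imp fun {a a'} hne => ?_
  intro x hx hx'
  rw [List.mem_map] at hx hx'
  obtain ⟨b, -, rfl⟩ := hx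
  obtain ⟨b', -, h⟩ := hx'
  exact hne (hg _ _ _ _ h).1.symm

private theorem Word_nodup (o₀ : Oc V) (F : List (Cl V)) : (verts o₀ F).Nodup := by
  have ho := occ_nodup F
  unfold verts
  refine List.nodup_append.2 ⟨?_, List.nodup_append.2 ⟨?_, List.nodup_append.2 ⟨?_,
    List.nodup_append.2 ⟨?_, List.nodup_append.2 ⟨?_, ?_, ?_⟩, ?_⟩, ?_⟩, ?_⟩, ?_⟩
  · refine List.nodup_range.map fun j j' h => ?_
    simpa using h
  · refine Word_pairs ho List.nodup_range
      (fun o i => ((0 : Fin 6), ((some o, i), (o₀, o₀)))) fun a b a' b' h => ?_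
    simpa using h
  · refine Word_pairs ho ho (fun o o' => ((1 : Fin 6), ((none, 0), (o, o')))) fun a b a' b' h => ?_
    simpa using h
  · refine Word_pairs ho ho (fun o o' => ((2 : Fin 6), ((none, 0), (o, o')))) fun a b a' b' h => ?_
    simpa using h
  · refine Word_pairs ho ho (fun o o' => ((3 : Fin 6), ((none, 0), (o, o')))) fun a b a' b' h => ?_
    simpa using h
  · simp
  all_goals
    intro a ha b hb hab
    subst hab
    simp only [List.mem_append, List.mem_map, List.mem_flatMap, List.mem_range, List.mem_cons,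
      List.not_mem_nil, or_false] at ha hb
  · obtain ⟨o, -, o', -, rfl⟩ := ha
    rcases hb with h | h <;> simp at h
  · obtain ⟨o, -, o', -, rfl⟩ := ha
    rcases hb with ⟨_, _, _, _, h⟩ | h | h <;> simp at h
  · obtain ⟨o, -, o', -, rfl⟩ := ha
    rcases hb with ⟨_, _, _, _, h⟩ | ⟨_, _, _, _, h⟩ | h | h <;> simp at h
  · obtain ⟨o, -, o', -, rfl⟩ := ha
    rcases hb with ⟨_, _, _, _, h⟩ | ⟨_, _, _, _, h⟩ | ⟨_, _, _, _, h⟩ | h | h <;> simp at h
  · obtain ⟨j, -, rfl⟩ := ha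
    rcases hb with ⟨_, _, _, _, h⟩ | ⟨_, _, _, _, h⟩ | ⟨_, _, _, _, h⟩ | ⟨_, _, _, _, h⟩ |
      h | h <;> simp at h

/-- Proof: `(verts o₀ F).map dec` has no duplicates (`occ_nodup`, `List.nodup_range`). -/
theorem vtx_injective (o₀ : Oc V) (F : List (Cl V)) : Function.Injective (vtx o₀ F) := by
  intro i j h
  have h1 := Word_cod_dec o₀ F (List.get_mem (verts o₀ F) i)
  have h2 := Word_cod_dec o₀ F (List.get_mem (verts o₀ F) j)
  unfold vtx at h
  rw [h, h2] at h1
  exact (List.nodup_iff_injective_get.1 (Word_nodup o₀ F) h1).symm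

theorem mem_range_vtx (o₀ : Oc V) (F : List (Cl V)) :
    (∀ j ≤ F.length, Vx.hub (none, j) ∈ Set.range (vtx o₀ F)) ∧
    (∀ o ∈ occ F, ∀ i < (occ F).length, Vx.hub (some o, i) ∈ Set.range (vtx o₀ F)) ∧
    (∀ o ∈ occ F, ∀ o' ∈ occ F, ∀ b, Vx.en (o, o') b ∈ Set.range (vtx o₀ F)) ∧
    (∀ o o', Vx.rt (o, o') ∈ Set.range (vtx o₀ F) ↔ o ∈ occ F ∧ o' ∈ occ F) ∧
    Vx.va ∈ Set.range (vtx o₀ F) ∧ Vx.vb ∈ Set.range (vtx o₀ F) := by
  have hr : ∀ x, x ∈ Set.range (vtx o₀ F) ↔ ∃ w ∈ verts o₀ F, dec w = x := by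
    intro x
    constructor
    · rintro ⟨i, rfl⟩
      exact ⟨_, List.get_mem (verts o₀ F) i, rfl⟩
    · rintro ⟨w, hw, rfl⟩
      obtain ⟨i, rfl⟩ := List.get_of_mem hw
      exact ⟨i, rfl⟩
  refine ⟨fun j hj => ?_, fun o ho i hi => ?_, fun o ho o' ho' b => ?_, fun o o' => ?_, ?_, ?_⟩
  · exact (hr _).2 ⟨_, (Word_mem o₀ F _).2 (.inl ⟨j, by omega, rfl⟩), rfl⟩
  · exact (hr _).2 ⟨_, (Word_mem o₀ F _).2 (.inr (.inl ⟨o, ho, i, hi, rfl⟩)), rfl⟩
  · cases b
    · exact (hr _).2 ⟨_, (Word_mem o₀ F _).2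
        (.inr (.inr (.inr (.inl ⟨o, ho, o', ho', rfl⟩)))), rfl⟩
    · exact (hr _).2 ⟨_, (Word_mem o₀ F _).2 (.inr (.inr (.inl ⟨o, ho, o', ho', rfl⟩))), rfl⟩
  · constructor
    · intro h
      obtain ⟨w, hw, hd⟩ := (hr _).1 h
      have h1 := Word_cod_dec o₀ F hw
      rw [hd] at h1
      rw [← h1, Word_mem] at hw
      rcases hw with ⟨_, _, h⟩ | ⟨_, _, _, _, h⟩ | ⟨_, _, _, _, h⟩ | ⟨_, _, _, _, h⟩ |
        ⟨a, ha, a', ha', h⟩ | h | h
      · simp [Word_cod] at h
      · simp [Word_cod] at h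
      · simp [Word_cod] at h
      · simp [Word_cod] at h
      · simp only [Word_cod, Prod.mk.injEq, true_and] at h
        obtain ⟨rfl, rfl⟩ := h
        exact ⟨ha, ha'⟩
      · simp [Word_cod] at h
      · simp [Word_cod] at h
    · rintro ⟨ho, ho'⟩
      exact (hr _).2 ⟨_, (Word_mem o₀ F _).2
        (.inr (.inr (.inr (.inr (.inl ⟨o, ho, o', ho', rfl⟩))))), rfl⟩
  · exact (hr _).2 ⟨_, (Word_mem o₀ F _).2
      (.inr (.inr (.inr (.inr (.inr (.inl rfl)))))), rfl⟩
  · exact (hr _).2 ⟨_, (Word_mem o₀ F _).2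
      (.inr (.inr (.inr (.inr (.inr (.inr rfl)))))), rfl⟩

end Pool.Agent.MP_007122_lc
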